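import Pool.Agent.TRQ.Defs

/-! [DNA-D1] sums of multiplicative functions, upper bound -/

set_option autoImplicit false

open Finset Filter Topology
open scoped Classical

namespace TRQ

variable {P : Type}

/-- [DNA-D1a] PROOF. The sum over all subsets is `∏ (1 + g v) ≤ exp (∑ g v)` (`Finset.prod_one_add`). -/
theorem sum_powerset_le {S : Finset P} {g : P → ℝ} (hg : ∀ v ∈ S, 0 ≤ g v) :
    ∑ T ∈ S.powerset, ∏ v ∈ T, g v ≤ Real.exp (∑ v ∈ S, g v) := by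
  rw [← Finset.prod_one_add, Real.exp_sum]
  refine Finset.prod_le_prod (fun v hv => ?_) fun v _ => ?_
  · have := hg v hv
    linarith
  · rw [add_comm]
    exact Real.add_one_le_exp _

/-- the sum of `F(S) / nS S` -/
theorem d1_div (B : Sys0 P) {f : P → ℝ} (hf : ∀ v, 0 ≤ f v) (X : ℝ) :
    ∑ S ∈ B.sb X, (∏ v ∈ S, f v) / B.nS S ≤ Real.exp (∑ v ∈ B.pb X, f v / B.N v) := by
  have hg : ∀ v, 0 ≤ f v / (B.N v : ℝ) := fun v => div_nonneg (hf v) (Nat.cast_nonneg _)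
  refine le_trans ?_ (sum_powerset_le (g := fun v => f v / (B.N v : ℝ)) fun v _ => hg v)
  refine le_trans (le_of_eq (Finset.sum_congr rfl fun S _ => ?_))
    (Finset.sum_le_sum_of_subset_of_nonneg (Finset.filter_subset _ _) fun S _ _ => Finset.prod_nonneg fun v _ => hg v)
  rw [Finset.prod_div_distrib]
  unfold Base.nS
  push_cast
  rfl

/-- the sum with the logarithm -/
theorem d1_log (B : Sys0 P) {κ : ℝ} (hκ : 1 ≤ κ) {f : P → ℝ} (hf : ∀ v, 0 ≤ f v) (hfκ : ∀ v, f v ≤ κ)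
    {X : ℝ} (hX : 0 < X) : ∑ S ∈ B.sb X, (∏ v ∈ S, f v) * Real.log (B.nS S) ≤
      κ * B.C * X * ∑ S ∈ B.sb X, (∏ v ∈ S, f v) / B.nS S := by
  have hF : ∀ S : Finset P, 0 ≤ ∏ v ∈ S, f v := fun S => Finset.prod_nonneg fun v _ => hf v
  have hN0 : ∀ v, (0 : ℝ) < B.N v := fun v => by
    have := B.two v
    exact_mod_cast (by omega : 0 < B.N v)
  have hlogN : ∀ v, 0 ≤ Real.log (B.N v) := fun v => Real.log_natCast_nonneg _
  -- the pairs
  have h1 : ∑ S ∈ B.sb X, (∏ v ∈ S, f v) * Real.log (B.nS S) =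
      ∑ x ∈ (B.sb X).sigma (fun S => S), (∏ v ∈ x.1, f v) * Real.log (B.N x.2) := by
    rw [Finset.sum_sigma]
    refine Finset.sum_congr rfl fun S _ => ?_
    show _ = ∑ s ∈ S, (∏ v ∈ S, f v) * Real.log (B.N s)
    rw [← Finset.mul_sum]
    congr 1
    unfold Base.nS
    rw [Nat.cast_prod, Real.log_prod fun v _ => (hN0 v).ne']
  have h2 : ∀ x ∈ (B.sb X).sigma (fun S => S), (∏ v ∈ x.1, f v) * Real.log (B.N x.2) ≤
      κ * (∏ v ∈ x.1.erase x.2, f v) * Real.log (B.N x.2) := by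
    intro x hx
    rw [Finset.mem_sigma] at hx
    refine mul_le_mul_of_nonneg_right ?_ (hlogN _)
    rw [← Finset.mul_prod_erase x.1 f hx.2]
    exact mul_le_mul_of_nonneg_right (hfκ _) (hF _)
  let i : (Σ _ : Finset P, P) → (Σ _ : Finset P, P) := fun x => ⟨x.1.erase x.2, x.2⟩
  have hi : Set.InjOn i ((B.sb X).sigma (fun S => S)) := by
    rintro ⟨S, v⟩ hx ⟨S', v'⟩ hx' h
    rw [Finset.mem_coe, Finset.mem_sigma] at hx hx'
    simp only [i, Sigma.mk.injEq] at h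
    obtain ⟨h3, h4⟩ := h
    have h4' : v = v' := eq_of_heq h4
    subst h4'
    have h5 : S = S' := by
      calc S = insert v (S.erase v) := (Finset.insert_erase hx.2).symm
        _ = insert v (S'.erase v) := by rw [h3]
        _ = S' := Finset.insert_erase hx'.2
    subst h5
    rfl
  have h3 : ∑ x ∈ (B.sb X).sigma (fun S => S), κ * (∏ v ∈ x.1.erase x.2, f v) * Real.log (B.N x.2) =
      ∑ y ∈ ((B.sb X).sigma (fun S => S)).image i, κ * (∏ v ∈ y.1, f v) * Real.log (B.N y.2) := by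
    rw [Finset.sum_image hi]
  have h4 : ((B.sb X).sigma (fun S => S)).image i ⊆ (B.sb X).sigma (fun S => B.pb (X / B.nS S)) := by
    intro y hy
    rw [Finset.mem_image] at hy
    obtain ⟨⟨S, v⟩, hx, rfl⟩ := hy
    rw [Finset.mem_sigma] at hx
    obtain ⟨hS, hv⟩ := hx
    simp only at hS hv
    rw [Base.mem_sb] at hS
    have h5 : B.nS S = B.N v * B.nS (S.erase v) := by
      unfold Base.nS
      rw [Finset.mul_prod_erase S B.N hv]
    have h6 : (0 : ℝ) < B.nS (S.erase v) := by exact_mod_cast B.nS_pos _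
    rw [h5, Nat.cast_mul] at hS
    have h7 : (1 : ℝ) ≤ B.N v := by
      have := B.two v
      exact_mod_cast (by omega : 1 ≤ B.N v)
    simp only [i]
    rw [Finset.mem_sigma, Base.mem_sb, Base.mem_pb, le_div_iff₀ h6]
    exact ⟨by nlinarith, hS⟩
  have h5 : ∑ y ∈ (B.sb X).sigma (fun S => B.pb (X / B.nS S)), κ * (∏ v ∈ y.1, f v) * Real.log (B.N y.2) ≤
      κ * B.C * X * ∑ S ∈ B.sb X, (∏ v ∈ S, f v) / B.nS S := by
    rw [Finset.sum_sigma, Finset.mul_sum]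
    refine Finset.sum_le_sum fun S _ => ?_
    have h6 : (0 : ℝ) < B.nS S := by exact_mod_cast B.nS_pos _
    have h7 := B.cheb (X / B.nS S) (by positivity)
    show ∑ s ∈ B.pb (X / B.nS S), κ * (∏ v ∈ S, f v) * Real.log (B.N s) ≤ _
    rw [← Finset.mul_sum]
    refine (mul_le_mul_of_nonneg_left h7 (mul_nonneg (by linarith) (hF S))).trans (le_of_eq ?_)
    ring
  rw [h1]
  refine (Finset.sum_le_sum h2).trans ?_
  rw [h3]
  refine le_trans (Finset.sum_le_sum_of_subset_of_nonneg h4 fun y _ _ => ?_) h5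
  exact mul_nonneg (mul_nonneg (by linarith) (hF _)) (hlogN _)

/-- [DNA-D1] PROOF. `F(S) = ∏_{v ∈ S} f v`. `log X · ∑ F(S) = ∑ F(S) log (X / nS S) + ∑ F(S) log nS S`.
First sum: `log y ≤ y`: at most `X ∑ F(S) / nS S ≤ X exp (∑ f v / N v)`. Second sum: `log nS S = ∑_{v ∈ S} log N v`, put `S = S' ∪ {v}`:
at most `∑_{S'} F(S') ∑_{N v ≤ X / nS S'} κ log N v ≤ κ C X ∑ F(S') / nS S'` (`cheb`). -/
theorem sum_le (B : Sys0 P) (κ : ℝ) (hκ : 1 ≤ κ) : ∃ C' : ℝ, 0 < C' ∧ ∀ f : P → ℝ, (∀ v, 0 ≤ f v) → (∀ v, f v ≤ κ) →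
    ∀ X : ℝ, 2 ≤ X → ∑ S ∈ B.sb X, ∏ v ∈ S, f v ≤
      C' * (X / Real.log X) * Real.exp (∑ v ∈ B.pb X, f v / B.N v) := by
  have hC := B.hC
  have hκC : 0 < κ * B.C := by positivity
  refine ⟨1 + κ * B.C, by linarith, ?_⟩
  intro f hf hfκ X hX
  have hF : ∀ S : Finset P, 0 ≤ ∏ v ∈ S, f v := fun S => Finset.prod_nonneg fun v _ => hf v
  have hlog : 0 < Real.log X := Real.log_pos (by linarith)
  have hX0 : 0 < X := by linarith
  have h1 := d1_div B hf X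
  have h2 := d1_log B hκ hf hfκ hX0
  have h3 : Real.log X * ∑ S ∈ B.sb X, ∏ v ∈ S, f v ≤
      X * ∑ S ∈ B.sb X, (∏ v ∈ S, f v) / B.nS S + ∑ S ∈ B.sb X, (∏ v ∈ S, f v) * Real.log (B.nS S) := by
    rw [Finset.mul_sum, Finset.mul_sum, ← Finset.sum_add_distrib]
    refine Finset.sum_le_sum fun S hS => ?_
    have h4 : (0 : ℝ) < B.nS S := by exact_mod_cast B.nS_pos _
    have h5 : Real.log X = Real.log (X / B.nS S) + Real.log (B.nS S) := by
      rw [Real.log_div hX0.ne' h4.ne']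
      ring
    have h6 : Real.log (X / B.nS S) ≤ X / B.nS S := Real.log_le_self (by positivity)
    rw [h5, add_mul]
    have h7 : Real.log (X / B.nS S) * ∏ v ∈ S, f v ≤ X / B.nS S * ∏ v ∈ S, f v :=
      mul_le_mul_of_nonneg_right h6 (hF S)
    have h8 : X / B.nS S * ∏ v ∈ S, f v = X * ((∏ v ∈ S, f v) / B.nS S) := by ring
    rw [h8] at h7
    linarith [mul_comm (Real.log (B.nS S)) (∏ v ∈ S, f v)]
  have h4 : Real.log X * ∑ S ∈ B.sb X, ∏ v ∈ S, f v ≤ (1 + κ * B.C) * X * Real.exp (∑ v ∈ B.pb X, f v / B.N v) := by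
    have h5 : 0 < (1 + κ * B.C) * X := by positivity
    calc _ ≤ X * ∑ S ∈ B.sb X, (∏ v ∈ S, f v) / B.nS S + ∑ S ∈ B.sb X, (∏ v ∈ S, f v) * Real.log (B.nS S) := h3
      _ ≤ X * ∑ S ∈ B.sb X, (∏ v ∈ S, f v) / B.nS S + κ * B.C * X * ∑ S ∈ B.sb X, (∏ v ∈ S, f v) / B.nS S := by
        linarith
      _ = (1 + κ * B.C) * X * ∑ S ∈ B.sb X, (∏ v ∈ S, f v) / B.nS S := by ring
      _ ≤ _ := mul_le_mul_of_nonneg_left h1 h5.le
  have h5 : (1 + κ * B.C) * (X / Real.log X) * Real.exp (∑ v ∈ B.pb X, f v / B.N v) =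
      (1 + κ * B.C) * X * Real.exp (∑ v ∈ B.pb X, f v / B.N v) / Real.log X := by ring
  rw [h5, le_div_iff₀ hlog, mul_comm]
  exact h4

end TRQ
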