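import Pool.Agent.TRQ.D2

/-! [DNA-D3] the number of the sets, lower bound -/

set_option autoImplicit false

open Finset Filter Topology
open scoped Classical

namespace TRQ

variable {P : Type}

theorem d3_exp {y : ℝ} (hy : 0 ≤ y) : Real.exp (y - y ^ 2) ≤ 1 + y := by
  rw [← Real.le_log_iff_exp_le (by linarith)]
  refine le_trans ?_ (Real.le_log_one_add_of_nonneg hy)
  rw [le_div_iff₀ (by linarith)]
  nlinarith [mul_nonneg hy (sq_nonneg y), sq_nonneg y]

theorem d3_sq (B : Sys0 P) (S : Finset P) : ∑ v ∈ S, (1 / (B.N v : ℝ)) ^ 2 ≤ B.C := by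
  have hC0 : 0 ≤ B.C := le_trans zero_le_one B.hC
  have h1 : ∑ v ∈ S, (1 / (B.N v : ℝ)) ^ 2 = ∑ k ∈ S.image B.N, ∑ v ∈ S.filter (fun v => B.N v = k), (1 / (B.N v : ℝ)) ^ 2 := by
    rw [Finset.sum_fiberwise_of_maps_to]
    exact fun v hv => Finset.mem_image_of_mem _ hv
  have h2 : ∀ k ∈ S.image B.N, ∑ v ∈ S.filter (fun v => B.N v = k), (1 / (B.N v : ℝ)) ^ 2 ≤ B.C * ((k : ℝ) ^ 2)⁻¹ := by
    intro k _
    have h3 : ∑ v ∈ S.filter (fun v => B.N v = k), (1 / (B.N v : ℝ)) ^ 2 =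
        ((S.filter (fun v => B.N v = k)).card : ℝ) * ((k : ℝ) ^ 2)⁻¹ := by
      rw [← nsmul_eq_mul, ← Finset.sum_const]
      refine Finset.sum_congr rfl fun v hv => ?_
      rw [(Finset.mem_filter.1 hv).2, one_div, inv_pow]
    rw [h3]
    refine mul_le_mul_of_nonneg_right ?_ (by positivity)
    exact B.same k _ fun v hv => (Finset.mem_filter.1 hv).2
  rw [h1]
  refine (Finset.sum_le_sum h2).trans ?_
  rw [← Finset.mul_sum]
  obtain ⟨M, hM⟩ : ∃ M, ∀ k ∈ S.image B.N, k < M := ⟨(S.image B.N).sup id + 1, fun k hk =>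
    Nat.lt_succ_of_le (Finset.le_sup (f := id) hk)⟩
  have h4 : ∑ k ∈ S.image B.N, ((k : ℝ) ^ 2)⁻¹ ≤ ∑ k ∈ Finset.Ioo 1 M, ((k : ℝ) ^ 2)⁻¹ := by
    refine Finset.sum_le_sum_of_subset_of_nonneg ?_ fun k _ _ => by positivity
    intro k hk
    rw [Finset.mem_Ioo]
    refine ⟨?_, hM k hk⟩
    obtain ⟨v, _, rfl⟩ := Finset.mem_image.1 hk
    exact B.two v
  have h5 : ∑ k ∈ Finset.Ioo 1 M, ((k : ℝ) ^ 2)⁻¹ ≤ 1 := by
    refine (sum_Ioo_inv_sq_le 1 M).trans ?_
    norm_num
  calc B.C * ∑ k ∈ S.image B.N, ((k : ℝ) ^ 2)⁻¹ ≤ B.C * 1 := mul_le_mul_of_nonneg_left (h4.trans h5) hC0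
    _ = B.C := mul_one _

theorem d3_inv (B : Base P) (S : Finset P) : 1 / (B.nS S : ℝ) = ∏ v ∈ S, 1 / (B.N v : ℝ) := by
  unfold Base.nS
  rw [Nat.cast_prod, Finset.prod_div_distrib, Finset.prod_const_one]

theorem d3_prod (B : Sys0 P) (w : ℝ) : Real.exp (B.H w - B.C) ≤ ∑ S ∈ (B.pb w).powerset, 1 / (B.nS S : ℝ) := by
  have h1 : ∑ S ∈ (B.pb w).powerset, 1 / (B.nS S : ℝ) = ∏ v ∈ B.pb w, (1 + 1 / (B.N v : ℝ)) := by
    rw [Finset.prod_one_add]
    exact Finset.sum_congr rfl fun S _ => d3_inv B.toBase S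
  rw [h1]
  calc Real.exp (B.H w - B.C) ≤ Real.exp (∑ v ∈ B.pb w, (1 / (B.N v : ℝ) - (1 / (B.N v : ℝ)) ^ 2)) := by
        refine Real.exp_le_exp.2 ?_
        rw [Finset.sum_sub_distrib]
        exact sub_le_sub le_rfl (d3_sq B _)
    _ = ∏ v ∈ B.pb w, Real.exp (1 / (B.N v : ℝ) - (1 / (B.N v : ℝ)) ^ 2) := Real.exp_sum _ _
    _ ≤ _ := by
        refine Finset.prod_le_prod (fun v _ => (Real.exp_pos _).le) fun v _ => ?_
        have h2 : (2 : ℝ) ≤ B.N v := by exact_mod_cast B.two v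
        exact d3_exp (by positivity)

/-- the tail -/
theorem d3_tail (B : Sys0 P) {w Y a : ℝ} (hY : 1 ≤ Y) (ha : 0 < a) (haw : a * Real.log w ≤ 1) (hw : 1 ≤ w) :
    ∑ S ∈ (B.pb w).powerset.filter (fun S => ¬ (B.nS S : ℝ) ≤ Y), 1 / (B.nS S : ℝ) ≤
      Y ^ (-a) * Real.exp (B.H w + 2 * a * (B.β * Real.log w + B.C)) := by
  have hY0 : 0 < Y := by linarith
  have hn0 : ∀ S, (0 : ℝ) < B.nS S := fun S => by exact_mod_cast B.nS_pos S
  have h1 : ∀ S ∈ (B.pb w).powerset.filter (fun S => ¬ (B.nS S : ℝ) ≤ Y), 1 / (B.nS S : ℝ) ≤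
      Y ^ (-a) * ∏ v ∈ S, ((B.N v : ℝ) ^ a / B.N v) := by
    intro S hS
    have h2 := (Finset.mem_filter.1 hS).2
    rw [not_le] at h2
    have h3 : ∏ v ∈ S, ((B.N v : ℝ) ^ a / B.N v) = (B.nS S : ℝ) ^ a / B.nS S := by
      unfold Base.nS
      rw [Finset.prod_div_distrib, Nat.cast_prod, Real.finsetProd_rpow _ _ fun v _ => Nat.cast_nonneg _]
    rw [h3, Real.rpow_neg hY0.le, ← mul_div_assoc]
    refine div_le_div_of_nonneg_right ?_ (hn0 S).le
    rw [inv_mul_eq_div, le_div_iff₀ (Real.rpow_pos_of_pos hY0 _), one_mul]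
    exact Real.rpow_le_rpow hY0.le h2.le ha.le
  refine (Finset.sum_le_sum h1).trans ?_
  rw [← Finset.mul_sum]
  refine mul_le_mul_of_nonneg_left ?_ (Real.rpow_pos_of_pos hY0 _).le
  calc ∑ S ∈ (B.pb w).powerset.filter (fun S => ¬ (B.nS S : ℝ) ≤ Y), ∏ v ∈ S, ((B.N v : ℝ) ^ a / B.N v) ≤
        ∑ S ∈ (B.pb w).powerset, ∏ v ∈ S, ((B.N v : ℝ) ^ a / B.N v) :=
        Finset.sum_le_sum_of_subset_of_nonneg (Finset.filter_subset _ _) fun S _ _ =>
          Finset.prod_nonneg fun v _ => by positivity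
    _ = ∏ v ∈ B.pb w, (1 + (B.N v : ℝ) ^ a / B.N v) := by rw [Finset.prod_one_add]
    _ ≤ ∏ v ∈ B.pb w, Real.exp ((B.N v : ℝ) ^ a / B.N v) := by
        refine Finset.prod_le_prod (fun v _ => by positivity) fun v _ => ?_
        rw [add_comm]
        exact Real.add_one_le_exp _
    _ = Real.exp (∑ v ∈ B.pb w, (B.N v : ℝ) ^ a / B.N v) := (Real.exp_sum _ _).symm
    _ ≤ _ := by
        refine Real.exp_le_exp.2 ?_
        have h4 : ∀ v ∈ B.pb w, (B.N v : ℝ) ^ a / B.N v ≤ 1 / (B.N v : ℝ) + 2 * a * (Real.log (B.N v) / B.N v) := by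
          intro v hv
          rw [B.mem_pb] at hv
          have hv2 : (2 : ℝ) ≤ B.N v := by exact_mod_cast B.two v
          have hv0 : (0 : ℝ) < B.N v := by linarith
          have hlog : 0 ≤ Real.log (B.N v) := Real.log_nonneg (by linarith)
          have h5 : a * Real.log (B.N v) ≤ 1 :=
            le_trans (mul_le_mul_of_nonneg_left (Real.log_le_log hv0 hv) ha.le) haw
          have h6 : (B.N v : ℝ) ^ a ≤ 1 + 2 * (a * Real.log (B.N v)) := by
            rw [Real.rpow_def_of_pos hv0, mul_comm (Real.log _) a]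
            set y := a * Real.log (B.N v) with hy
            have hy0 : 0 ≤ y := by positivity
            have h7 := (abs_le.1 (Real.abs_exp_sub_one_sub_id_le (x := y) (by rw [abs_le]; constructor <;> linarith))).2
            nlinarith
          have h8 : 1 / (B.N v : ℝ) + 2 * a * (Real.log (B.N v) / B.N v) = (1 + 2 * (a * Real.log (B.N v))) / B.N v := by
            field_simp
          rw [h8]
          exact div_le_div_of_nonneg_right h6 hv0.le
        refine (Finset.sum_le_sum h4).trans ?_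
        rw [Finset.sum_add_distrib, ← Finset.mul_sum]
        refine add_le_add le_rfl (mul_le_mul_of_nonneg_left ?_ (by positivity))
        have h9 := (abs_le.1 (B.mert w hw)).2
        linarith

/-- [DNA-D3a] PROOF. `θ > 0` small, `w = Y^θ`, `a = 1 / log w`. The sum over all subsets of `pb w` is `∏ (1 + 1/N v) ≥ c₁ (log w)^β` (`abs_H_sub_le`,
`log (1 + y) ≥ y - y²/2`, `∑ 1/N v² < ∞`: `same`). The part with `nS S > Y`: at most `Y^(-a) ∏ (1 + N v^a / N v) ≤ exp (-1/θ) exp (∑ N v^a / N v)`, and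
`N v^a ≤ 1 + (e - 1) a log N v` for `N v ≤ w`, so `∑ N v^a / N v ≤ H w + (e-1) a (β log w + C) ≤ β log log w + C''`. So it is at most
`exp (-1/θ) C₂ (log w)^β ≤ c₁/2 (log w)^β` for `θ` small. (`Y ≥ 3^(1/θ)`; for `1 ≤ Y` smaller the sum is at least `1` (`S = ∅`) and `(log Y)^β` is bounded.) -/
theorem sum_inv_ge (B : Sys0 P) : ∃ c : ℝ, 0 < c ∧ ∀ Y : ℝ, 1 ≤ Y →
    c * (Real.log Y) ^ B.β ≤ ∑ S ∈ B.sb Y, 1 / (B.nS S : ℝ) := by
  obtain ⟨C', hC', hH⟩ := abs_H_sub_le B
  have hC0 : 0 < B.C := lt_of_lt_of_le one_pos B.hC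
  have hβ := B.hβ
  have hβ1 := B.hβ1
  have hlog3 : 1 < Real.log 3 := by
    rw [Real.lt_log_iff_exp_lt (by norm_num)]
    have := Real.exp_one_lt_d9
    linarith
  -- `exp (- 1/θ)` is small
  set c1 := Real.exp (-C' - B.C) with hc1
  set c2 := Real.exp (C' + 2 * (B.β + B.C)) with hc2
  have hc1p : 0 < c1 := Real.exp_pos _
  have hc2p : 0 < c2 := Real.exp_pos _
  set T : ℝ := max 1 (2 * (c2 / c1)) with hT
  have hT1 : 1 ≤ T := le_max_left _ _
  have hT0 : 0 < T := by linarith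
  have hexpT : Real.exp (-T) * c2 ≤ c1 / 2 := by
    have h1 : T < Real.exp T := by linarith [Real.add_one_le_exp T]
    have h2 : 2 * (c2 / c1) ≤ Real.exp T := (le_max_right _ _).trans h1.le
    rw [Real.exp_neg, inv_mul_le_iff₀ (Real.exp_pos _)]
    have h3 : 2 * c2 ≤ Real.exp T * c1 := by
      rw [← mul_div_assoc, div_le_iff₀ hc1p] at h2
      exact h2
    linarith
  refine ⟨min (c1 / 2 * (1 / T) ^ B.β) (1 / (T * Real.log 3 + 1) ^ B.β), by positivity, fun Y hY => ?_⟩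
  have hY0 : 0 < Y := by linarith
  have hlY : 0 ≤ Real.log Y := Real.log_nonneg hY
  rcases lt_or_ge (Real.log Y) (T * Real.log 3) with hsmall | hbig
  · have h1 : (1 : ℝ) ≤ ∑ S ∈ B.sb Y, 1 / (B.nS S : ℝ) := by
      have h2 : (∅ : Finset P) ∈ B.sb Y := by
        rw [B.mem_sb]
        unfold Base.nS
        rw [Finset.prod_empty, Nat.cast_one]
        exact hY
      refine le_trans ?_ (Finset.single_le_sum (f := fun S => 1 / (B.nS S : ℝ)) (fun S _ => by positivity) h2)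
      unfold Base.nS
      rw [Finset.prod_empty, Nat.cast_one, div_one]
    refine le_trans ?_ h1
    have h3 : (Real.log Y) ^ B.β ≤ (T * Real.log 3 + 1) ^ B.β :=
      Real.rpow_le_rpow hlY (by linarith) hβ.le
    have h4 : 0 < (T * Real.log 3 + 1) ^ B.β := Real.rpow_pos_of_pos (by positivity) _
    calc _ ≤ 1 / (T * Real.log 3 + 1) ^ B.β * (T * Real.log 3 + 1) ^ B.β :=
          mul_le_mul (min_le_right _ _) h3 (Real.rpow_nonneg hlY _) (by positivity)
      _ = 1 := by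
          rw [one_div, inv_mul_cancel₀ h4.ne']
  · set w := Real.exp (Real.log Y / T) with hw
    have hlw : Real.log w = Real.log Y / T := Real.log_exp _
    have hw3 : 3 ≤ w := by
      rw [hw, ← Real.log_le_iff_le_exp (by norm_num), le_div_iff₀ hT0, mul_comm]
      exact hbig
    have hlw1 : 1 ≤ Real.log w := by
      rw [hlw, le_div_iff₀ hT0, one_mul]
      nlinarith
    have hlw0 : 0 < Real.log w := by linarith
    have h1 := d3_prod B w
    have h2 := d3_tail B (w := w) (Y := Y) (a := 1 / Real.log w) hY (by positivity)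
      (by rw [one_div, inv_mul_cancel₀ hlw0.ne']) (by linarith)
    have h3 := Finset.sum_filter_add_sum_filter_not (B.pb w).powerset (fun S => (B.nS S : ℝ) ≤ Y)
      (fun S => 1 / (B.nS S : ℝ))
    have h4 : ∑ S ∈ (B.pb w).powerset.filter (fun S => (B.nS S : ℝ) ≤ Y), 1 / (B.nS S : ℝ) ≤
        ∑ S ∈ B.sb Y, 1 / (B.nS S : ℝ) := by
      refine Finset.sum_le_sum_of_subset_of_nonneg ?_ fun S _ _ => by positivity
      intro S hS
      rw [B.mem_sb]
      exact (Finset.mem_filter.1 hS).2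
    have hHw := abs_le.1 (hH w hw3)
    have h5 : c1 * (Real.log w) ^ B.β ≤ Real.exp (B.H w - B.C) := by
      rw [hc1, Real.rpow_def_of_pos hlw0, ← Real.exp_add]
      refine Real.exp_le_exp.2 ?_
      linarith [mul_comm (Real.log (Real.log w)) B.β]
    have h6 : Y ^ (-(1 / Real.log w)) * Real.exp (B.H w + 2 * (1 / Real.log w) * (B.β * Real.log w + B.C)) ≤
        c1 / 2 * (Real.log w) ^ B.β := by
      have h7 : Y ^ (-(1 / Real.log w)) = Real.exp (-T) := by
        rw [Real.rpow_def_of_pos hY0, hlw]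
        congr 1
        have : Real.log Y ≠ 0 := by
          intro h0
          rw [h0, zero_div] at hlw
          linarith
        field_simp
      have h8 : Real.exp (B.H w + 2 * (1 / Real.log w) * (B.β * Real.log w + B.C)) ≤ c2 * (Real.log w) ^ B.β := by
        rw [hc2, Real.rpow_def_of_pos hlw0, ← Real.exp_add]
        refine Real.exp_le_exp.2 ?_
        have h9 : 2 * (1 / Real.log w) * (B.β * Real.log w + B.C) = 2 * B.β + 2 * (B.C / Real.log w) := by
          field_simp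
        have h10 : B.C / Real.log w ≤ B.C := div_le_self hC0.le hlw1
        rw [h9]
        linarith [mul_comm (Real.log (Real.log w)) B.β]
      rw [h7]
      calc Real.exp (-T) * Real.exp (B.H w + 2 * (1 / Real.log w) * (B.β * Real.log w + B.C)) ≤
            Real.exp (-T) * (c2 * (Real.log w) ^ B.β) := mul_le_mul_of_nonneg_left h8 (Real.exp_pos _).le
        _ = Real.exp (-T) * c2 * (Real.log w) ^ B.β := by ring
        _ ≤ _ := mul_le_mul_of_nonneg_right hexpT (Real.rpow_nonneg hlw0.le _)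
    have h11 : c1 / 2 * (Real.log w) ^ B.β ≤ ∑ S ∈ B.sb Y, 1 / (B.nS S : ℝ) := by
      linarith
    refine le_trans ?_ h11
    calc _ ≤ c1 / 2 * (1 / T) ^ B.β * (Real.log Y) ^ B.β :=
          mul_le_mul_of_nonneg_right (min_le_left _ _) (Real.rpow_nonneg hlY _)
      _ = c1 / 2 * (Real.log w) ^ B.β := by
          rw [mul_assoc, ← Real.mul_rpow (by positivity) hlY, hlw]
          congr 2
          ring

/-- many primes in `(Y/D, Y]` -/
theorem d3_primes (B : Sys0 P) : ∃ D : ℝ, 1 < D ∧ ∀ R Y : ℝ, 1 ≤ R → R * D ≤ Y →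
    Y / (D * Real.log Y) ≤ (((B.pb Y).filter fun v => R < (B.N v : ℝ)).card : ℝ) := by
  have hC0 : 0 < B.C := lt_of_lt_of_le one_pos B.hC
  have hβ := B.hβ
  refine ⟨Real.exp ((2 * B.C + 1) / B.β), Real.one_lt_exp_iff.2 (by positivity), fun R Y hR hRY => ?_⟩
  set D := Real.exp ((2 * B.C + 1) / B.β) with hD
  have hD1 : 1 < D := Real.one_lt_exp_iff.2 (by positivity)
  have hD0 : 0 < D := by linarith
  have hlD : B.β * Real.log D = 2 * B.C + 1 := by
    rw [hD, Real.log_exp]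
    field_simp
  have hRD : R ≤ Y / D := by
    rw [le_div_iff₀ hD0]
    exact hRY
  have hYD1 : 1 ≤ Y / D := hR.trans hRD
  have hYDY : Y / D ≤ Y := div_le_self (by nlinarith) hD1.le
  have hY1 : 1 < Y := by nlinarith
  have hY0 : 0 < Y := by linarith
  have hlY : 0 < Real.log Y := Real.log_pos hY1
  have h1 := (abs_le.1 (B.mert Y hY1.le)).1
  have h2 := (abs_le.1 (B.mert (Y / D) hYD1)).2
  rw [Real.log_div hY0.ne' hD0.ne'] at h2
  have hsub : B.pb (Y / D) ⊆ B.pb Y := by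
    intro v hv
    rw [B.mem_pb] at hv ⊢
    exact hv.trans hYDY
  have h3 : ∑ v ∈ B.pb Y \ B.pb (Y / D), Real.log (B.N v) / B.N v +
      ∑ v ∈ B.pb (Y / D), Real.log (B.N v) / B.N v = ∑ v ∈ B.pb Y, Real.log (B.N v) / B.N v :=
    Finset.sum_sdiff hsub
  have h4 : 1 ≤ ∑ v ∈ B.pb Y \ B.pb (Y / D), Real.log (B.N v) / B.N v := by
    have h5 : B.β * (Real.log Y - Real.log D) = B.β * Real.log Y - (2 * B.C + 1) := by
      rw [mul_sub, hlD]
    linarith
  have h6 : ∑ v ∈ B.pb Y \ B.pb (Y / D), Real.log (B.N v) / B.N v ≤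
      ∑ v ∈ B.pb Y \ B.pb (Y / D), D * Real.log Y / Y := by
    refine Finset.sum_le_sum fun v hv => ?_
    rw [Finset.mem_sdiff, B.mem_pb, B.mem_pb, not_le] at hv
    have hv2 : (2 : ℝ) ≤ B.N v := by exact_mod_cast B.two v
    have hv0 : (0 : ℝ) < B.N v := by linarith
    have h7 : Real.log (B.N v) ≤ Real.log Y := Real.log_le_log hv0 hv.1
    have h8 : Y ≤ D * B.N v := by
      have := hv.2.le
      rw [div_le_iff₀ hD0] at this
      linarith
    rw [div_le_div_iff₀ hv0 hY0]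
    have h9 : 0 ≤ Real.log (B.N v) := Real.log_nonneg (by linarith)
    nlinarith [mul_le_mul h7 h8 hY0.le hlY.le]
  rw [Finset.sum_const, nsmul_eq_mul] at h6
  have h10 : ((B.pb Y \ B.pb (Y / D)).card : ℝ) ≤ (((B.pb Y).filter fun v => R < (B.N v : ℝ)).card : ℝ) := by
    refine Nat.cast_le.2 (Finset.card_le_card fun v hv => ?_)
    rw [Finset.mem_sdiff, B.mem_pb, B.mem_pb, not_le] at hv
    rw [Finset.mem_filter, B.mem_pb]
    exact ⟨hv.1, lt_of_le_of_lt hRD hv.2⟩
  refine le_trans ?_ h10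
  rw [div_le_iff₀ (by positivity)]
  have h11 := h4.trans h6
  rw [← mul_div_assoc, le_div_iff₀ hY0, one_mul] at h11
  linarith

/-- [DNA-D3] PROOF. `S = S' ∪ {v}`, `nS S' ≤ X^(1/4)`, `√X < N v ≤ X / nS S'`: such a set determines `v` (the only prime of norm `> √X`, as `nS S ≤ X`). With `D = exp ((2 C + 1)/β)`
`mert` gives `∑_{Y/D < N v ≤ Y} log N v / N v ≥ 1`, so at least `Y / (D log Y)` primes in `(Y/D, Y]`, `Y = X / nS S'`, `Y/D ≥ √X` for large `X`. So
`#sb X ≥ ∑_{nS S' ≤ X^(1/4)} X / (nS S' D log X)`, and `sum_inv_ge`. -/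
theorem card_sb_ge (B : Sys0 P) : ∃ c X₀ : ℝ, 0 < c ∧ ∀ X : ℝ, X₀ ≤ X →
    c * X * (Real.log X) ^ (B.β - 1) ≤ ((B.sb X).card : ℝ) := by
  obtain ⟨D, hD1, hD⟩ := d3_primes B
  obtain ⟨c, hc, hinv⟩ := sum_inv_ge B
  have hD0 : 0 < D := by linarith
  refine ⟨c / (D * 4 ^ B.β), D ^ 4, by positivity, fun X hX => ?_⟩
  have hX1 : 1 < X := lt_of_lt_of_le (one_lt_pow₀ hD1 (by norm_num)) hX
  have hX0 : 0 < X := by linarith
  have hlX : 0 < Real.log X := Real.log_pos hX1
  set z := X ^ ((1 : ℝ) / 4) with hz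
  have hz1 : 1 ≤ z := Real.one_le_rpow hX1.le (by norm_num)
  have hz0 : 0 < z := by linarith
  have hz4 : z ^ 4 = X := by
    rw [hz, ← Real.rpow_natCast, ← Real.rpow_mul hX0.le]
    norm_num
  have hDz : D ≤ z := by
    by_contra h
    rw [not_le] at h
    have := pow_lt_pow_left₀ h hz0.le (by norm_num : (4 : ℕ) ≠ 0)
    rw [hz4] at this
    linarith
  have hnn : ∀ S, (1 : ℝ) ≤ B.nS S := fun S => by exact_mod_cast B.nS_pos S
  -- the injection
  set A : Finset (Finset P × P) := (B.sb z).biUnion fun S' =>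
    ((B.pb (X / B.nS S')).filter fun v => z ^ 2 < (B.N v : ℝ)).image fun v => (S', v) with hA
  have hmemA : ∀ q : Finset P × P, q ∈ A ↔ (B.nS q.1 : ℝ) ≤ z ∧ (B.N q.2 : ℝ) ≤ X / B.nS q.1 ∧ z ^ 2 < (B.N q.2 : ℝ) := by
    rintro ⟨S, v⟩
    rw [hA, Finset.mem_biUnion]
    constructor
    · rintro ⟨S', hS', h⟩
      rw [Finset.mem_image] at h
      obtain ⟨v', hv', h⟩ := h
      rw [Prod.mk.injEq] at h
      obtain ⟨rfl, rfl⟩ := h
      rw [Finset.mem_filter, B.mem_pb] at hv'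
      exact ⟨B.mem_sb.1 hS', hv'.1, hv'.2⟩
    · rintro ⟨h1, h2, h3⟩
      refine ⟨S, B.mem_sb.2 h1, Finset.mem_image.2 ⟨v, ?_, rfl⟩⟩
      rw [Finset.mem_filter, B.mem_pb]
      exact ⟨h2, h3⟩
  have hnot : ∀ q ∈ A, ∀ u ∈ q.1, (B.N u : ℝ) ≤ z ^ 2 := by
    intro q hq u hu
    rw [hmemA] at hq
    have h1 : (B.N u : ℝ) ≤ B.nS q.1 := by exact_mod_cast B.le_nS hu
    nlinarith [hq.1]
  have hcardA : A.card ≤ (B.sb X).card := by
    refine Finset.card_le_card_of_injOn (fun q => insert q.2 q.1) ?_ ?_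
    · intro q hq
      have hq' := (hmemA q).1 hq
      have hv : q.2 ∉ q.1 := fun h => absurd (hnot q hq _ h) (not_le.2 hq'.2.2)
      rw [Finset.mem_coe, B.mem_sb]
      have h1 : B.nS (insert q.2 q.1) = B.N q.2 * B.nS q.1 := Finset.prod_insert hv
      rw [h1]
      push_cast
      have h2 := hq'.2.1
      rw [le_div_iff₀ (by linarith [hnn q.1])] at h2
      exact h2
    · intro q hq q' hq' h
      have h1 := (hmemA q).1 hq
      have h1' := (hmemA q').1 hq'
      have hv : q.2 ∉ q.1 := fun h => absurd (hnot q hq _ h) (not_le.2 h1.2.2)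
      have hv' : q'.2 ∉ q'.1 := fun h => absurd (hnot q' hq' _ h) (not_le.2 h1'.2.2)
      have h' : insert q.2 q.1 = insert q'.2 q'.1 := h
      have h2 : q.2 = q'.2 := by
        have h3 : q.2 ∈ insert q'.2 q'.1 := by
          rw [← h']
          exact Finset.mem_insert_self _ _
        rcases Finset.mem_insert.1 h3 with h4 | h4
        · exact h4
        · exact absurd (hnot q' hq' _ h4) (not_le.2 h1.2.2)
      refine Prod.ext ?_ h2
      rw [h2] at hv h'
      rw [← Finset.erase_insert hv, ← Finset.erase_insert hv', h']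
  have hAc : (A.card : ℝ) = ∑ S' ∈ B.sb z, (((B.pb (X / B.nS S')).filter fun v => z ^ 2 < (B.N v : ℝ)).card : ℝ) := by
    rw [hA, Finset.card_biUnion, Nat.cast_sum]
    · refine Finset.sum_congr rfl fun S' _ => ?_
      rw [Finset.card_image_of_injective]
      intro v v' h
      exact (Prod.mk.injEq _ _ _ _ ▸ h : S' = S' ∧ v = v').2
    · intro S _ S' _ hne
      rw [Function.onFun, Finset.disjoint_left]
      intro q hq hq'
      obtain ⟨v, _, rfl⟩ := Finset.mem_image.1 hq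
      obtain ⟨v', _, h⟩ := Finset.mem_image.1 hq'
      exact hne (Prod.mk.injEq _ _ _ _ ▸ h : S' = S ∧ v' = v).1.symm
  have hterm : ∀ S' ∈ B.sb z, X / (D * Real.log X) * (1 / (B.nS S' : ℝ)) ≤
      (((B.pb (X / B.nS S')).filter fun v => z ^ 2 < (B.N v : ℝ)).card : ℝ) := by
    intro S' hS'
    rw [B.mem_sb] at hS'
    have hn := hnn S'
    have hn0 : (0 : ℝ) < B.nS S' := by linarith
    set Y := X / B.nS S' with hY
    have hYX : Y ≤ X := div_le_self hX0.le hn
    have hYz : z ^ 2 * D ≤ Y := by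
      rw [hY, le_div_iff₀ hn0, ← hz4]
      have h1 : z ^ 2 * D * B.nS S' ≤ z ^ 2 * z * z :=
        mul_le_mul (mul_le_mul_of_nonneg_left hDz (by positivity)) hS' hn0.le (by positivity)
      calc _ ≤ z ^ 2 * z * z := h1
        _ = z ^ 4 := by ring
    have hz2 : 1 ≤ z ^ 2 := by nlinarith
    refine le_trans ?_ (hD (z ^ 2) Y hz2 hYz)
    have hY1 : 1 < Y := by nlinarith
    have hY0 : 0 < Y := by linarith
    have hlY : 0 < Real.log Y := Real.log_pos hY1
    have hlYX : Real.log Y ≤ Real.log X := Real.log_le_log hY0 hYX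
    calc X / (D * Real.log X) * (1 / (B.nS S' : ℝ)) = Y / (D * Real.log X) := by
          rw [hY]
          field_simp
      _ ≤ Y / (D * Real.log Y) := by
          refine div_le_div_of_nonneg_left hY0.le (by positivity) ?_
          exact mul_le_mul_of_nonneg_left hlYX hD0.le
  have h1 := Finset.sum_le_sum hterm
  rw [← hAc, ← Finset.mul_sum] at h1
  have h2 := hinv z hz1
  have hlz : Real.log z = Real.log X / 4 := by
    rw [hz, Real.log_rpow hX0]
    ring
  rw [hlz, Real.div_rpow hlX.le (by norm_num)] at h2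
  have h3 : X / (D * Real.log X) * (c * ((Real.log X) ^ B.β / 4 ^ B.β)) ≤ (A.card : ℝ) :=
    (mul_le_mul_of_nonneg_left h2 (by positivity)).trans h1
  refine le_trans (le_trans (le_of_eq ?_) h3) (by exact_mod_cast hcardA)
  rw [Real.rpow_sub hlX, Real.rpow_one]
  field_simp

end TRQ
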