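import Pool.Agent.TRN.N9

/-! [DNA-E1] the number of the nondegenerate symmetric forms over `F_2` with given values on a subspace -/

set_option autoImplicit false

open scoped Classical
open Matrix

namespace TRQ

open TRN

section
variable {ι : Type} [Fintype ι]

/-- the symmetric matrices which agree with `M0` on `U` -/
noncomputable def symU (U : Submodule (ZMod 2) (ι → ZMod 2)) (M0 : Matrix ι ι (ZMod 2)) :
    Finset (Matrix ι ι (ZMod 2)) :=
  Finset.univ.filter fun M => M.IsSymm ∧ ∀ u ∈ U, M *ᵥ u = M0 *ᵥ u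

theorem mem_symU {U : Submodule (ZMod 2) (ι → ZMod 2)} {M0 M : Matrix ι ι (ZMod 2)} :
    M ∈ symU U M0 ↔ M.IsSymm ∧ ∀ u ∈ U, M *ᵥ u = M0 *ᵥ u := by
  unfold symU
  rw [Finset.mem_filter]
  exact and_iff_right (Finset.mem_univ _)

/-- the vectors orthogonal to `U` -/
def perp (U : Submodule (ZMod 2) (ι → ZMod 2)) (M0 : Matrix ι ι (ZMod 2)) : Submodule (ZMod 2) (ι → ZMod 2) where
  carrier := {v | ∀ u ∈ U, v ⬝ᵥ (M0 *ᵥ u) = 0}
  zero_mem' := fun u _ => zero_dotProduct _
  add_mem' := fun {a b} ha hb u hu => by rw [add_dotProduct, ha u hu, hb u hu, add_zero]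
  smul_mem' := fun c a ha u hu => by rw [smul_dotProduct, ha u hu, smul_zero]

/-- `W`: a complement of the radical of `U` in the orthogonal space, and a projection onto `W` which vanishes on `U` -/
theorem exists_W (U : Submodule (ZMod 2) (ι → ZMod 2)) (M0 : Matrix ι ι (ZMod 2)) :
    ∃ W Q : Submodule (ZMod 2) (ι → ZMod 2), (U ⊓ perp U M0) ⊔ W = perp U M0 ∧ Disjoint (U ⊓ perp U M0) W ∧
      U ≤ Q ∧ IsCompl W Q := by
  obtain ⟨C, hC⟩ := (U ⊓ perp U M0).exists_isCompl
  have h1 : (U ⊓ perp U M0) ⊔ (C ⊓ perp U M0) = perp U M0 := by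
    rw [← sup_inf_assoc_of_le C (inf_le_right : U ⊓ perp U M0 ≤ perp U M0), hC.sup_eq_top, top_inf_eq]
  have h2 : Disjoint (U ⊓ perp U M0) (C ⊓ perp U M0) := hC.disjoint.mono_right inf_le_left
  have h3 : Disjoint (C ⊓ perp U M0) U := by
    rw [Submodule.disjoint_def]
    intro x hx hxU
    exact Submodule.disjoint_def.1 h2 x ⟨hxU, hx.2⟩ hx
  obtain ⟨Q, hQ1, hQ2⟩ := h3.symm.exists_isCompl
  exact ⟨C ⊓ perp U M0, Q, h1, h2, hQ1, hQ2.symm⟩

/-- the matrices of the inclusion of `W` and of the projection -/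
theorem exists_mats {W Q : Submodule (ZMod 2) (ι → ZMod 2)} (h : IsCompl W Q) :
    ∃ (w : Matrix ι (Fin (Module.finrank (ZMod 2) W)) (ZMod 2)) (p : Matrix (Fin (Module.finrank (ZMod 2) W)) ι (ZMod 2)),
      p * w = 1 ∧ (∀ u ∈ Q, p *ᵥ u = 0) ∧ (∀ x, w *ᵥ x ∈ W) ∧ ∀ v ∈ W, ∃ x, v = w *ᵥ x := by
  let b := Module.finBasis (ZMod 2) W
  let f : (Fin (Module.finrank (ZMod 2) W) → ZMod 2) →ₗ[ZMod 2] (ι → ZMod 2) :=
    W.subtype ∘ₗ b.equivFun.symm.toLinearMap
  let g : (ι → ZMod 2) →ₗ[ZMod 2] (Fin (Module.finrank (ZMod 2) W) → ZMod 2) :=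
    b.equivFun.toLinearMap ∘ₗ W.projectionOnto Q h
  refine ⟨LinearMap.toMatrix' f, LinearMap.toMatrix' g, ?_, ?_, ?_, ?_⟩
  · rw [← LinearMap.toMatrix'_comp]
    have h1 : g ∘ₗ f = LinearMap.id := by
      refine LinearMap.ext fun x => ?_
      change b.equivFun (W.projectionOnto Q h ((b.equivFun.symm x : W) : ι → ZMod 2)) = x
      rw [Submodule.projectionOnto_apply_left, LinearEquiv.apply_symm_apply]
    rw [h1, LinearMap.toMatrix'_id]
  · intro u hu
    rw [LinearMap.toMatrix'_mulVec]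
    change b.equivFun (W.projectionOnto Q h u) = 0
    rw [(Submodule.projectionOnto_apply_eq_zero_iff h).2 hu, map_zero]
  · intro x
    rw [LinearMap.toMatrix'_mulVec]
    exact (b.equivFun.symm x).2
  · intro v hv
    refine ⟨b.equivFun ⟨v, hv⟩, ?_⟩
    rw [LinearMap.toMatrix'_mulVec]
    change v = ((b.equivFun.symm (b.equivFun ⟨v, hv⟩) : W) : ι → ZMod 2)
    rw [LinearEquiv.symm_apply_apply]

/-- `M` is nondegenerate iff its restriction to `W` is -/
theorem det_iff [DecidableEq ι] {U W : Submodule (ZMod 2) (ι → ZMod 2)} {M0 M : Matrix ι ι (ZMod 2)} (hM : M ∈ symU U M0)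
    (hinj : ∀ u ∈ U, M0 *ᵥ u = 0 → u = 0) (hW : (U ⊓ perp U M0) ⊔ W = perp U M0)
    (hd : Disjoint (U ⊓ perp U M0) W) {n : ℕ} {w : Matrix ι (Fin n) (ZMod 2)} {p : Matrix (Fin n) ι (ZMod 2)}
    (hpw : p * w = 1) (hw : ∀ x, w *ᵥ x ∈ W) (hw' : ∀ v ∈ W, ∃ x, v = w *ᵥ x) :
    M.det ≠ 0 ↔ (wᵀ * M * w).det ≠ 0 := by
  rw [mem_symU] at hM
  obtain ⟨hs, hU⟩ := hM
  have hsym : ∀ x y : ι → ZMod 2, x ⬝ᵥ (M *ᵥ y) = y ⬝ᵥ (M *ᵥ x) := by
    intro x y
    rw [dotProduct_mulVec, ← mulVec_transpose, hs.eq, dotProduct_comm]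
  have hG : ∀ (y x : Fin n → ZMod 2), y ⬝ᵥ ((wᵀ * M * w) *ᵥ x) = (w *ᵥ y) ⬝ᵥ (M *ᵥ (w *ᵥ x)) := by
    intro y x
    rw [← mulVec_mulVec, ← mulVec_mulVec, dotProduct_mulVec, ← mulVec_transpose, transpose_transpose]
  have hWp : W ≤ perp U M0 := le_sup_right.trans hW.le
  constructor
  · intro h h0
    obtain ⟨x, hx0, hx⟩ := Matrix.exists_mulVec_eq_zero_iff.2 h0
    have hv : w *ᵥ x ∈ W := hw x
    -- `M (w x)` is orthogonal to `perp U M0`
    have h1 : ∀ z ∈ perp U M0, z ⬝ᵥ (M *ᵥ (w *ᵥ x)) = 0 := by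
      intro z hz
      rw [← hW] at hz
      obtain ⟨r, hr, v, hv', rfl⟩ := Submodule.mem_sup.1 hz
      rw [add_dotProduct]
      have h2 : r ⬝ᵥ (M *ᵥ (w *ᵥ x)) = 0 := by
        rw [hsym, hU r hr.1]
        exact hWp hv r hr.1
      obtain ⟨y, rfl⟩ := hw' v hv'
      rw [h2, ← hG, hx, dotProduct_zero, add_zero]
    -- double orthogonal
    have hnd : (Matrix.toBilin' M).Nondegenerate :=
      (LinearMap.BilinForm.nondegenerate_toBilin'_iff_det_ne_zero).2 h
    have hrefl : (Matrix.toBilin' M).IsRefl := by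
      intro a b hab
      rw [Matrix.toBilin'_apply'] at hab ⊢
      rw [hsym, hab]
    have h3 : w *ᵥ x ∈ (Matrix.toBilin' M).orthogonal ((Matrix.toBilin' M).orthogonal U) := by
      rw [LinearMap.BilinForm.mem_orthogonal_iff]
      intro z hz
      rw [Matrix.toBilin'_apply']
      apply h1
      intro u hu
      have h4 := (LinearMap.BilinForm.mem_orthogonal_iff.1 hz) u hu
      rw [Matrix.toBilin'_apply'] at h4
      rw [← hU u hu, hsym]
      exact h4
    rw [LinearMap.BilinForm.orthogonal_orthogonal hnd hrefl] at h3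
    have h5 := Submodule.disjoint_def.1 hd (w *ᵥ x) ⟨h3, hWp hv⟩ hv
    apply hx0
    have h6 : p *ᵥ (w *ᵥ x) = x := by rw [mulVec_mulVec, hpw, one_mulVec]
    rw [← h6, h5, mulVec_zero]
  · intro h h0
    obtain ⟨v, hv0, hv⟩ := Matrix.exists_mulVec_eq_zero_iff.2 h0
    have h1 : v ∈ perp U M0 := by
      intro u hu
      rw [← hU u hu, hsym, hv, dotProduct_zero]
    rw [← hW] at h1
    obtain ⟨r, hr, v', hv', rfl⟩ := Submodule.mem_sup.1 h1
    obtain ⟨x, rfl⟩ := hw' v' hv'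
    have h2 : (wᵀ * M * w) *ᵥ x = 0 := by
      refine dotProduct_eq_zero _ fun y => ?_
      rw [dotProduct_comm, hG]
      have h3 : (w *ᵥ y) ⬝ᵥ (M *ᵥ (r + w *ᵥ x)) = 0 := by rw [hv, dotProduct_zero]
      rw [mulVec_add, dotProduct_add] at h3
      have h4 : (w *ᵥ y) ⬝ᵥ (M *ᵥ r) = 0 := by
        rw [hU r hr.1]
        exact hWp (hw y) r hr.1
      rwa [h4, zero_add] at h3
    have h5 : x = 0 := by
      by_contra hx
      exact h (Matrix.exists_mulVec_eq_zero_iff.1 ⟨x, hx, h2⟩)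
    rw [h5, mulVec_zero, add_zero] at hv hv0
    rw [hU r hr.1] at hv
    exact hv0 (hinj r hr.1 hv)

end

/-- the number of the symmetric matrices -/
theorem card_symm (n : ℕ) : (Finset.univ.filter fun β : Matrix (Fin n) (Fin n) (ZMod 2) => β.IsSymm).card =
    2 ^ (n * (n + 1) / 2) := by
  have h1 : Fintype.card {f : Fin n → Fin n → ZMod 2 // ∀ a b, f a b = f b a} = 2 ^ (n * (n + 1) / 2) := by
    rw [Fintype.card_congr (Sym2.lift (α := Fin n) (β := ZMod 2)), Fintype.card_fun, Sym2.card, Fintype.card_fin,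
      ZMod.card, Nat.choose_two_right, Nat.add_sub_cancel, mul_comm]
  rw [← h1, Fintype.card_subtype]
  refine Finset.card_bij' (fun M _ => fun i j => M i j) (fun f _ => Matrix.of fun i j => f i j) ?_ ?_ ?_ ?_
  · intro M hM
    rw [Finset.mem_filter] at hM ⊢
    exact ⟨Finset.mem_univ _, fun a b => hM.2.apply b a⟩
  · intro f hf
    rw [Finset.mem_filter] at hf ⊢
    refine ⟨Finset.mem_univ _, ?_⟩
    ext a b
    exact hf.2 b a
  · intro M _
    rfl
  · intro f _
    rfl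

section
variable {ι : Type} [Fintype ι]

theorem perp_finrank (U : Submodule (ZMod 2) (ι → ZMod 2)) (M0 : Matrix ι ι (ZMod 2)) :
    Fintype.card ι ≤ Module.finrank (ZMod 2) (perp U M0) + Module.finrank (ZMod 2) U := by
  let T : (ι → ZMod 2) →ₗ[ZMod 2] (U →ₗ[ZMod 2] ZMod 2) :=
    { toFun := fun v => (Matrix.toBilin' M0 v) ∘ₗ U.subtype
      map_add' := fun a b => by
        rw [map_add, LinearMap.add_comp]
      map_smul' := fun c a => by
        rw [map_smul, LinearMap.smul_comp, RingHom.id_apply] }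
  have h1 : LinearMap.ker T = perp U M0 := by
    ext v
    rw [LinearMap.mem_ker]
    constructor
    · intro h u hu
      have h2 := LinearMap.congr_fun h ⟨u, hu⟩
      change Matrix.toBilin' M0 v u = 0 at h2
      rwa [Matrix.toBilin'_apply'] at h2
    · intro h
      refine LinearMap.ext fun u => ?_
      change Matrix.toBilin' M0 v u = 0
      rw [Matrix.toBilin'_apply']
      exact h u u.2
  have h2 := LinearMap.finrank_range_add_finrank_ker T
  rw [h1, Module.finrank_pi] at h2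
  have h3 : Module.finrank (ZMod 2) (LinearMap.range T) ≤ Module.finrank (ZMod 2) U := by
    refine (Submodule.finrank_le _).trans ?_
    exact (Subspace.dual_finrank_eq (K := ZMod 2) (V := U)).le
  omega

/-- [DNA-E1] THE NUMBER OF THE NONDEGENERATE SYMMETRIC FORMS WITH GIVEN VALUES ON A SUBSPACE -/
theorem count_forms [DecidableEq ι] (U : Submodule (ZMod 2) (ι → ZMod 2)) {M0 : Matrix ι ι (ZMod 2)}
    (hinj : ∀ u ∈ U, M0 *ᵥ u = 0 → u = 0) :
    ∃ n : ℕ, Fintype.card ι ≤ n + 2 * Module.finrank (ZMod 2) U ∧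
      n + Module.finrank (ZMod 2) U ≤ Fintype.card ι ∧
      (((symU U M0).filter fun M => M.det ≠ 0).card : ℝ) = sn n * (symU U M0).card := by
  obtain ⟨W, Q, hW, hd, hUQ, hQ⟩ := exists_W U M0
  obtain ⟨n, hn, w, p, hpw, hp, hw, hw'⟩ : ∃ n, n = Module.finrank (ZMod 2) W ∧
      ∃ (w : Matrix ι (Fin n) (ZMod 2)) (p : Matrix (Fin n) ι (ZMod 2)),
      p * w = 1 ∧ (∀ u ∈ Q, p *ᵥ u = 0) ∧ (∀ x, w *ᵥ x ∈ W) ∧ ∀ v ∈ W, ∃ x, v = w *ᵥ x :=
    ⟨_, rfl, exists_mats hQ⟩
  have hpU : ∀ u ∈ U, p *ᵥ u = 0 := fun u hu => hp u (hUQ hu)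
  set F : Matrix (Fin n) (Fin n) (ZMod 2) → Finset (Matrix ι ι (ZMod 2)) := fun β =>
    (symU U M0).filter fun M => wᵀ * M * w = β with hF
  -- the fibres
  have hsymm : ∀ M ∈ symU U M0, (wᵀ * M * w).IsSymm := by
    intro M hM
    rw [mem_symU] at hM
    rw [Matrix.IsSymm, Matrix.transpose_mul, Matrix.transpose_mul, Matrix.transpose_transpose, hM.1.eq,
      Matrix.mul_assoc]
  have hadd : ∀ β : Matrix (Fin n) (Fin n) (ZMod 2), β.IsSymm → ∀ γ, γ.IsSymm → (F β).card = (F (β + γ)).card := by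
    intro β hβ γ hγ
    have h1 : ∀ M ∈ symU U M0, M + pᵀ * γ * p ∈ symU U M0 := by
      intro M hM
      rw [mem_symU] at hM ⊢
      refine ⟨hM.1.add ?_, fun u hu => ?_⟩
      · rw [Matrix.IsSymm, Matrix.transpose_mul, Matrix.transpose_mul, Matrix.transpose_transpose, hγ.eq,
          Matrix.mul_assoc]
      · rw [Matrix.add_mulVec, hM.2 u hu, ← Matrix.mulVec_mulVec, hpU u hu, Matrix.mulVec_zero, add_zero]
    have h2 : ∀ M : Matrix ι ι (ZMod 2), wᵀ * (M + pᵀ * γ * p) * w = wᵀ * M * w + γ := by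
      intro M
      rw [Matrix.mul_add, Matrix.add_mul]
      congr 1
      have h3 : wᵀ * pᵀ = 1 := by rw [← Matrix.transpose_mul, hpw, Matrix.transpose_one]
      rw [← Matrix.mul_assoc, ← Matrix.mul_assoc, h3, Matrix.one_mul, Matrix.mul_assoc, hpw, Matrix.mul_one]
    have h4 : ∀ X : Matrix ι ι (ZMod 2), X + X = 0 := fun X => by
      ext i j
      exact zmod2_add_self _
    have h5 : ∀ X : Matrix (Fin n) (Fin n) (ZMod 2), X + X = 0 := fun X => by
      ext i j
      exact zmod2_add_self _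
    refine Finset.card_bij' (fun M _ => M + pᵀ * γ * p) (fun M _ => M + pᵀ * γ * p) ?_ ?_ ?_ ?_
    · intro M hM
      rw [hF, Finset.mem_filter] at hM ⊢
      exact ⟨h1 M hM.1, by rw [h2, hM.2]⟩
    · intro M hM
      rw [hF, Finset.mem_filter] at hM ⊢
      exact ⟨h1 M hM.1, by rw [h2, hM.2, add_assoc, h5, add_zero]⟩
    · intro M _
      rw [add_assoc, h4, add_zero]
    · intro M _
      rw [add_assoc, h4, add_zero]
  have hF0 : ∀ β : Matrix (Fin n) (Fin n) (ZMod 2), β.IsSymm → (F β).card = (F 0).card := by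
    intro β hβ
    have h := hadd 0 Matrix.isSymm_zero β hβ
    rw [zero_add] at h
    exact h.symm
  have htot : (symU U M0).card = 2 ^ (n * (n + 1) / 2) * (F 0).card := by
    rw [Finset.card_eq_sum_card_fiberwise (f := fun M => wᵀ * M * w)
      (t := Finset.univ.filter fun β : Matrix (Fin n) (Fin n) (ZMod 2) => β.IsSymm)]
    · rw [Finset.sum_congr rfl fun β hβ => hF0 β (Finset.mem_filter.1 hβ).2, Finset.sum_const, card_symm,
        smul_eq_mul]
    · intro M hM
      rw [Finset.mem_coe] at hM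
      rw [Finset.mem_coe, Finset.mem_filter]
      exact ⟨Finset.mem_univ _, hsymm M hM⟩
  have hdet : ((symU U M0).filter fun M => M.det ≠ 0).card = nI n * (F 0).card := by
    rw [Finset.card_eq_sum_card_fiberwise (f := fun M => wᵀ * M * w) (t := symI (Fin n))]
    · have h1 : ∀ β ∈ symI (Fin n), (((symU U M0).filter fun M => M.det ≠ 0).filter fun M => wᵀ * M * w = β).card =
          (F 0).card := by
        intro β hβ
        unfold symI at hβ
        rw [Finset.mem_filter] at hβ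
        rw [← hF0 β hβ.2.1, hF, Finset.filter_filter]
        congr 1
        refine Finset.filter_congr fun M hM => ⟨fun h => h.2, fun h => ⟨?_, h⟩⟩
        rw [det_iff hM hinj hW hd hpw hw hw', h]
        exact hβ.2.2
      rw [Finset.sum_congr rfl h1, Finset.sum_const, smul_eq_mul]
      rfl
    · intro M hM
      rw [Finset.mem_coe, Finset.mem_filter] at hM
      rw [Finset.mem_coe]
      unfold symI
      rw [Finset.mem_filter]
      exact ⟨Finset.mem_univ _, hsymm M hM.1, (det_iff hM.1 hinj hW hd hpw hw hw').1 hM.2⟩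
  refine ⟨n, ?_, ?_, ?_⟩
  · have h1 := perp_finrank U M0
    have h2 := Submodule.finrank_sup_add_finrank_inf_eq (U ⊓ perp U M0) W
    rw [hd.eq_bot, finrank_bot, hW, add_zero] at h2
    have h3 : Module.finrank (ZMod 2) (U ⊓ perp U M0 : Submodule (ZMod 2) (ι → ZMod 2)) ≤
        Module.finrank (ZMod 2) U := Submodule.finrank_mono inf_le_left
    omega
  · have h1 := Submodule.finrank_add_eq_of_isCompl hQ
    rw [Module.finrank_pi] at h1
    have h2 := Submodule.finrank_mono hUQ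
    omega
  · rw [hdet, htot]
    push_cast
    rw [nI_eq]
    ring

end

end TRQ
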