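import Pool.Agent.TRQ.Defs
import Pool.Agent.TRQ.E1

/-! [DNA-D6] the number of graphs with an odd number of spanning trees and given edges to some of the vertices -/

set_option autoImplicit false

open Finset Filter Topology
open scoped Classical

namespace TRQ

section
variable {T : Type} {m : ℕ}

/-- the edges of the graph on `T ⊕ Fin m`: `a` on `T`, `(g i).1` between `i` and `T`, `A` on `Fin m` -/
def bigE (a : T → T → ZMod 2) (g : Fin m → (T → ZMod 2) × ZMod 2) (A : TRN.Pairs m → ZMod 2) :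
    T ⊕ Fin m → T ⊕ Fin m → ZMod 2
  | Sum.inl u, Sum.inl v => a u v
  | Sum.inl u, Sum.inr i => (g i).1 u
  | Sum.inr i, Sum.inl u => (g i).1 u
  | Sum.inr i, Sum.inr j => TRN.symm A i j

/-- the edges to the root -/
def bigR (r : T → ZMod 2) (g : Fin m → (T → ZMod 2) × ZMod 2) : T ⊕ Fin m → ZMod 2
  | Sum.inl u => r u
  | Sum.inr i => (g i).2

/-- the cardinality of a filtered set does not depend on the decidability -/
theorem cfd {α : Type} {s : Finset α} {p q : α → Prop} {ip : DecidablePred p} {iq : DecidablePred q}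
    (h : ∀ x ∈ s, (p x ↔ q x)) : (@Finset.filter α p ip s).card = (@Finset.filter α q iq s).card :=
  congrArg Finset.card (@Finset.filter_congr α p q ip iq s h)

/-- the Laplacian on a finite type -/
noncomputable def lapI {ι : Type} [Fintype ι] [DecidableEq ι] (E : ι → ι → ZMod 2) (R : ι → ZMod 2) : Matrix ι ι (ZMod 2) :=
  fun i j => if i = j then R i + ∑ k ∈ Finset.univ.erase i, E i k else E i j

theorem f_univ {ι : Type} [Fintype ι] [DecidableEq ι] (E : ι → ι → ZMod 2) (R : ι → ZMod 2) :
    Pool.Agent.TRG.f E R Finset.univ = (lapI E R).det := by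
  unfold Pool.Agent.TRG.f
  rw [← Matrix.det_submatrix_equiv_self (Equiv.subtypeUnivEquiv (p := fun i => i ∈ (Finset.univ : Finset ι))
    fun i => Finset.mem_univ i)]
  congr 1
  ext i j
  rw [Matrix.submatrix_apply]
  unfold Pool.Agent.TRG.lap lapI
  by_cases h : i = j
  · rw [if_pos h, if_pos (congrArg _ h)]
    rfl
  · rw [if_neg h, if_neg fun h1 => h ((Equiv.subtypeUnivEquiv _).injective h1)]
    rfl

theorem lapI_isSymm {ι : Type} [Fintype ι] [DecidableEq ι] {E : ι → ι → ZMod 2} (hE : ∀ i j, E i j = E j i) (R : ι → ZMod 2) :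
    (lapI E R).IsSymm := by
  ext i j
  change lapI E R j i = lapI E R i j
  unfold lapI
  by_cases h : i = j
  · subst h
    rfl
  · rw [if_neg h, if_neg (Ne.symm h), hE]

theorem lapI_mulVec {ι : Type} [Fintype ι] [DecidableEq ι] (E : ι → ι → ZMod 2) (R : ι → ZMod 2) :
    Matrix.mulVec (lapI E R) (fun _ => 1) = R := by
  ext i
  rw [Matrix.mulVec, dotProduct]
  simp only [mul_one]
  rw [← Finset.add_sum_erase _ _ (Finset.mem_univ i)]
  have h1 : lapI E R i i = R i + ∑ k ∈ Finset.univ.erase i, E i k := by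
    unfold lapI
    rw [if_pos rfl]
  have h2 : ∑ j ∈ Finset.univ.erase i, lapI E R i j = ∑ k ∈ Finset.univ.erase i, E i k := by
    refine Finset.sum_congr rfl fun j hj => ?_
    unfold lapI
    rw [if_neg (Finset.ne_of_mem_erase hj).symm]
  rw [h1, h2, add_assoc, TRN.zmod2_add_self, add_zero]

/-- a matrix with given row sums and given entries off the diagonal -/
theorem eq_lapI {ι : Type} [Fintype ι] [DecidableEq ι] {E : ι → ι → ZMod 2} {R : ι → ZMod 2} {M : Matrix ι ι (ZMod 2)}
    (h : ∀ i j, i ≠ j → M i j = E i j) (h1 : Matrix.mulVec M (fun _ => 1) = R) : M = lapI E R := by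
  ext i j
  unfold lapI
  by_cases hij : i = j
  · subst hij
    rw [if_pos rfl]
    have h5 := congrFun h1 i
    rw [Matrix.mulVec, dotProduct] at h5
    simp only [mul_one] at h5
    rw [← Finset.add_sum_erase _ _ (Finset.mem_univ i)] at h5
    have h6 : ∑ k ∈ Finset.univ.erase i, E i k = ∑ k ∈ Finset.univ.erase i, M i k :=
      Finset.sum_congr rfl fun j hj => (h i j (Finset.ne_of_mem_erase hj).symm).symm
    rw [h6, ← h5, add_assoc, TRN.zmod2_add_self, add_zero]
  · rw [if_neg hij]
    exact h i j hij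

/-- the vectors which are constant on `Fin m` -/
def cst (T : Type) (m : ℕ) : Submodule (ZMod 2) (T ⊕ Fin m → ZMod 2) where
  carrier := {u | ∀ i j : Fin m, u (Sum.inr i) = u (Sum.inr j)}
  zero_mem' := fun _ _ => rfl
  add_mem' := fun {a b} ha hb i j => by rw [Pi.add_apply, Pi.add_apply, ha i j, hb i j]
  smul_mem' := fun c a ha i j => by rw [Pi.smul_apply, Pi.smul_apply, ha i j]

theorem cst_const {T : Type} {m : ℕ} {u : T ⊕ Fin m → ZMod 2} (hu : u ∈ cst T m) : ∃ e, ∀ i, u (Sum.inr i) = e := by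
  rcases isEmpty_or_nonempty (Fin m) with h | ⟨⟨j⟩⟩
  · exact ⟨0, fun i => h.elim i⟩
  · exact ⟨u (Sum.inr j), fun i => hu i j⟩

theorem cst_le (T : Type) [Fintype T] (m : ℕ) : Module.finrank (ZMod 2) (cst T m) ≤ Fintype.card T + 1 := by
  let F : ((T → ZMod 2) × ZMod 2) →ₗ[ZMod 2] (T ⊕ Fin m → ZMod 2) :=
    { toFun := fun x => Sum.elim x.1 fun _ => x.2
      map_add' := fun x y => by
        funext i
        rcases i with i | i <;> rfl
      map_smul' := fun c x => by
        funext i
        rcases i with i | i <;> rfl }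
  have h1 : cst T m ≤ LinearMap.range F := by
    intro u hu
    obtain ⟨e, he⟩ := cst_const hu
    refine ⟨(fun t => u (Sum.inl t), e), ?_⟩
    funext i
    rcases i with i | i
    · rfl
    · exact (he i).symm
  refine (Submodule.finrank_mono h1).trans ((LinearMap.finrank_range_le F).trans ?_)
  rw [Module.finrank_prod, Module.finrank_pi, Module.finrank_self]

theorem le_cst (T : Type) [Fintype T] (m : ℕ) : Fintype.card T ≤ Module.finrank (ZMod 2) (cst T m) := by
  let F : (T → ZMod 2) →ₗ[ZMod 2] cst T m :=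
    { toFun := fun x => ⟨Sum.elim x fun _ => 0, fun _ _ => rfl⟩
      map_add' := fun x y => by
        refine Subtype.ext (funext fun i => ?_)
        rcases i with i | i
        · rfl
        · exact (add_zero (0 : ZMod 2)).symm
      map_smul' := fun c x => by
        refine Subtype.ext (funext fun i => ?_)
        rcases i with i | i
        · rfl
        · exact (smul_zero c).symm }
  have h1 : Function.Injective F := by
    intro x y h
    funext t
    exact congrFun (congrArg Subtype.val h) (Sum.inl t)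
  have h2 := LinearMap.finrank_le_finrank_of_injective h1
  rwa [Module.finrank_pi] at h2

theorem bigE_symm {a : T → T → ZMod 2} (ha : ∀ u v, a u v = a v u) (g : Fin m → (T → ZMod 2) × ZMod 2)
    (A : TRN.Pairs m → ZMod 2) (i j : T ⊕ Fin m) : bigE a g A i j = bigE a g A j i := by
  rcases i with i | i <;> rcases j with j | j
  · exact ha i j
  · rfl
  · rfl
  · exact TRN.symm_comm A i j

/-- the columns of the vertices of `T` do not depend on `A` -/
theorem lapI_col [Fintype T] (a : T → T → ZMod 2) (g : Fin m → (T → ZMod 2) × ZMod 2) (A A' : TRN.Pairs m → ZMod 2)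
    (R : T ⊕ Fin m → ZMod 2) (i : T ⊕ Fin m) (t : T) :
    lapI (bigE a g A) R i (Sum.inl t) = lapI (bigE a g A') R i (Sum.inl t) := by
  unfold lapI
  by_cases h : i = Sum.inl t
  · subst h
    rw [if_pos rfl, if_pos rfl]
    congr 1
    refine Finset.sum_congr rfl fun k _ => ?_
    rcases k with k | k <;> rfl
  · rw [if_neg h, if_neg h]
    rcases i with i | i <;> rfl

theorem mulVec_cst [Fintype T] {M M' : Matrix (T ⊕ Fin m) (T ⊕ Fin m) (ZMod 2)}
    (h : ∀ i t, M i (Sum.inl t) = M' i (Sum.inl t))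
    (h1 : Matrix.mulVec M (fun _ => 1) = Matrix.mulVec M' (fun _ => 1)) {u : T ⊕ Fin m → ZMod 2}
    (hu : u ∈ cst T m) : Matrix.mulVec M u = Matrix.mulVec M' u := by
  obtain ⟨e, he⟩ := cst_const hu
  have h2 : u = e • (fun _ => 1 : T ⊕ Fin m → ZMod 2) + fun i => u i - e := by
    funext i
    simp
  rw [h2, Matrix.mulVec_add, Matrix.mulVec_add, Matrix.mulVec_smul, Matrix.mulVec_smul, h1]
  congr 1
  funext i
  rw [Matrix.mulVec, Matrix.mulVec, dotProduct, dotProduct]
  refine Finset.sum_congr rfl fun s _ => ?_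
  rcases s with s | s
  · rw [h i s]
  · rw [he s, sub_self, mul_zero, mul_zero]

theorem symU_key [Fintype T] {a : T → T → ZMod 2} (g : Fin m → (T → ZMod 2) × ZMod 2)
    (A0 : TRN.Pairs m → ZMod 2) (R : T ⊕ Fin m → ZMod 2) {M : Matrix (T ⊕ Fin m) (T ⊕ Fin m) (ZMod 2)}
    (hM : M ∈ symU (cst T m) (lapI (bigE a g A0) R)) :
    lapI (bigE a g fun p => M (Sum.inr p.1.1) (Sum.inr p.1.2)) R = M := by
  rw [mem_symU] at hM
  obtain ⟨h1, h2⟩ := hM
  have h3 : Matrix.mulVec M (fun _ => 1) = R := by
    rw [h2 (fun _ => 1) fun _ _ => rfl]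
    exact lapI_mulVec _ R
  have h4 : ∀ i t, M i (Sum.inl t) = lapI (bigE a g A0) R i (Sum.inl t) := by
    intro i t
    have h5 : (Pi.single (Sum.inl t) 1 : T ⊕ Fin m → ZMod 2) ∈ cst T m := by
      intro i j
      rw [Pi.single_eq_of_ne Sum.inr_ne_inl, Pi.single_eq_of_ne Sum.inr_ne_inl]
    have h6 := congrFun (h2 _ h5) i
    rwa [Matrix.mulVec_single_one, Matrix.mulVec_single_one] at h6
  symm
  refine eq_lapI (fun i j hij => ?_) h3
  rcases j with j | j
  · rw [h4]
    unfold lapI
    rw [if_neg hij]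
    rcases i with i | i <;> rfl
  · rcases i with i | i
    · rw [← h1.apply (Sum.inl i) (Sum.inr j), h4]
      unfold lapI
      rw [if_neg hij.symm]
      rfl
    · have h7 : (M.submatrix Sum.inr Sum.inr : Matrix (Fin m) (Fin m) (ZMod 2)).IsSymm := h1.submatrix _
      have h8 : i ≠ j := fun h => hij (congrArg Sum.inr h)
      exact (TRN.symm_of_matrix h7 h8).symm

/-- the Laplacians of the graphs -/
theorem card_big [Fintype T] {a : T → T → ZMod 2} (ha : ∀ u v, a u v = a v u) (g : Fin m → (T → ZMod 2) × ZMod 2)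
    (A0 : TRN.Pairs m → ZMod 2) (R : T ⊕ Fin m → ZMod 2) (Q : Matrix (T ⊕ Fin m) (T ⊕ Fin m) (ZMod 2) → Prop) :
    (Finset.univ.filter fun A : TRN.Pairs m → ZMod 2 => Q (lapI (bigE a g A) R)).card =
      ((symU (cst T m) (lapI (bigE a g A0) R)).filter Q).card := by
  refine Finset.card_bij' (fun A _ => lapI (bigE a g A) R) (fun M _ => fun p => M (Sum.inr p.1.1) (Sum.inr p.1.2))
    ?_ ?_ ?_ ?_
  · intro A hA
    rw [Finset.mem_filter] at hA ⊢
    refine ⟨?_, hA.2⟩
    rw [mem_symU]
    refine ⟨lapI_isSymm (bigE_symm ha g A) R, fun u hu => ?_⟩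
    refine mulVec_cst (fun i t => lapI_col a g A A0 R i t) ?_ hu
    rw [lapI_mulVec, lapI_mulVec]
  · intro M hM
    rw [Finset.mem_filter] at hM ⊢
    refine ⟨Finset.mem_univ _, ?_⟩
    rw [symU_key g A0 R hM.1]
    exact hM.2
  · intro A _
    funext p
    unfold lapI
    rw [if_neg fun h => (ne_of_lt p.2) (Sum.inr_injective h)]
    exact TRN.symm_of_lt A p
  · intro M hM
    rw [Finset.mem_filter] at hM
    exact symU_key g A0 R hM.1

/-- [DNA-D6] PROOF. The Laplacian is the symmetric matrix `[[A', B], [Bᵀ, D]]`; `A'`, `B` are given (`B u i = (g i).1 u`), and `A ↦ D` is a bijection onto the symmetric `m × m` matrices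
with `D 1 = b`, `b i = (g i).2 + ∑_u (g i).1 u` (`1` = the all-ones vector) as in `TRN.count_lap`. By `h` the rows of `B` and the vector `ρ i = (g i).2` are linearly independent; so `B : F₂^m → F₂^T`
is surjective, and with `K = ker B`, `dim K = m - #T`, `det ≠ 0` iff `D` restricted to `K` is nondegenerate (basis: `F₂^T`, a complement of `K`, `K`).
If `1 ∉ K`, the restriction of `D` to `K` is an arbitrary symmetric form (uniformly distributed): `k = m - #T`. If `1 ∈ K`, it is an arbitrary symmetric form on `K` with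
`D(1, x) = b(x) = ρ(x)`, and `ρ ≠ 0` on `K` (`ρ` is no combination of the rows of `B`): as in `TRN.count_lap` `k = m - #T - 1` if `ρ(1) = 1`, `k = m - #T - 2` if `ρ(1) = 0`. -/
theorem count_big [Fintype T] (a : T → T → ZMod 2) (ha : ∀ u v, a u v = a v u) (r : T → ZMod 2)
    (g : Fin m → (T → ZMod 2) × ZMod 2)
    (h : ∀ (A : Finset T) (ε : ZMod 2), (A.Nonempty ∨ ε ≠ 0) → ∃ i, ∑ u ∈ A, (g i).1 u + ε * (g i).2 ≠ 0) :
    ∃ k : ℕ, m ≤ k + Fintype.card T + 2 ∧ k ≤ m ∧
      ((Finset.univ.filter fun A : TRN.Pairs m → ZMod 2 =>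
        Pool.Agent.TRG.f (bigE a g A) (bigR r g) Finset.univ ≠ 0).card : ℝ) =
        TRN.sn k * 2 ^ Fintype.card (TRN.Pairs m) := by
  set R := bigR r g with hR
  have hinj : ∀ u ∈ cst T m, Matrix.mulVec (lapI (bigE a g 0) R) u = 0 → u = 0 := by
    intro u hu h0
    obtain ⟨e, he⟩ := cst_const hu
    have h2 : u = e • (fun _ => 1 : T ⊕ Fin m → ZMod 2) + fun i => u i - e := by
      funext i
      simp
    have h3 : ∀ i : Fin m, ∑ t ∈ Finset.univ.filter (fun t : T => u (Sum.inl t) - e ≠ 0), (g i).1 t +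
        e * (g i).2 = 0 := by
      intro i
      have h4 := congrFun h0 (Sum.inr i)
      rw [h2, Matrix.mulVec_add, Matrix.mulVec_smul, lapI_mulVec, Pi.add_apply, Pi.smul_apply, smul_eq_mul,
        Pi.zero_apply] at h4
      refine Eq.trans ?_ h4
      rw [add_comm]
      congr 1
      rw [Matrix.mulVec, dotProduct, Fintype.sum_sum_type]
      have h5 : ∑ j : Fin m, lapI (bigE a g 0) R (Sum.inr i) (Sum.inr j) * (u (Sum.inr j) - e) = 0 :=
        Finset.sum_eq_zero fun s _ => by rw [he s, sub_self, mul_zero]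
      rw [h5, add_zero, Finset.sum_filter]
      refine Finset.sum_congr rfl fun t _ => ?_
      have h6 : lapI (bigE a g 0) R (Sum.inr i) (Sum.inl t) = (g i).1 t := by
        unfold lapI
        rw [if_neg Sum.inr_ne_inl]
        rfl
      rw [h6]
      rcases TRN.zmod2_cases (u (Sum.inl t) - e) with h7 | h7
      · rw [h7, if_neg (not_not.2 rfl), mul_zero]
      · rw [h7, if_pos one_ne_zero, mul_one]
    have h8 : ¬ ((Finset.univ.filter fun t : T => u (Sum.inl t) - e ≠ 0).Nonempty ∨ e ≠ 0) := by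
      intro h9
      obtain ⟨i, hi⟩ := h _ _ h9
      exact hi (h3 i)
    rw [not_or, Finset.not_nonempty_iff_eq_empty, not_not, Finset.filter_eq_empty_iff] at h8
    obtain ⟨h9, h10⟩ := h8
    funext i
    rcases i with i | i
    · have h11 := h9 (Finset.mem_univ i)
      rw [not_not, h10, sub_zero] at h11
      exact h11
    · rw [he i, h10]
      rfl
  obtain ⟨n, h1, h2, h3⟩ := count_forms (cst T m) hinj
  rw [Fintype.card_sum, Fintype.card_fin] at h1 h2
  have h4 := cst_le T m
  have h5 := le_cst T m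
  refine ⟨n, by omega, by omega, ?_⟩
  have h6 := card_big ha g 0 R fun M => M.det ≠ 0
  have h7 := card_big ha g 0 R fun _ => True
  have h8 : (Finset.univ.filter fun A : TRN.Pairs m → ZMod 2 =>
      Pool.Agent.TRG.f (bigE a g A) R Finset.univ ≠ 0).card =
      (Finset.univ.filter fun A : TRN.Pairs m → ZMod 2 => (lapI (bigE a g A) R).det ≠ 0).card := by
    congr 1
    refine Finset.filter_congr fun A _ => ?_
    rw [f_univ]
  rw [Finset.filter_true, Finset.filter_true, Finset.card_univ, Fintype.card_fun, ZMod.card] at h7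
  have h9 : (2 : ℝ) ^ Fintype.card (TRN.Pairs m) = (symU (cst T m) (lapI (bigE a g 0) R)).card := by
    rw [← h7]
    push_cast
    rfl
  rw [h9, ← h3, h8]
  exact congrArg Nat.cast ((cfd fun _ _ => Iff.rfl).trans (h6.trans (cfd fun _ _ => Iff.rfl)))

end

section
variable {P : Type}

/-- the type of `v`: the edges to `T` and to the root -/
def typ (B : Base P) (T : Finset P) (v : P) : (T → ZMod 2) × ZMod 2 := (fun u => B.e u v, B.ρ v)

/-- [DNA-D6b] PROOF. Reindexing: `T ⊕ Fin m ≃ T ∪ image x`. (The diagonal entries of `Pool.Agent.TRG.lap` do not contain the loops; `sym`.) -/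
theorem f_big (B : Base P) (T : Finset P) {m : ℕ} (x : Fin m → P) (hx : Function.Injective x) (hT : ∀ i, x i ∉ T) :
    Pool.Agent.TRG.f B.e B.ρ (T ∪ Finset.univ.image x) =
      Pool.Agent.TRG.f (bigE (fun u v : T => B.e u v) (fun i => typ B T (x i)) (fun p => B.e (x p.1.1) (x p.1.2)))
        (bigR (fun u : T => B.ρ u) (fun i => typ B T (x i))) Finset.univ := by
  rw [f_univ]
  unfold Pool.Agent.TRG.f
  have hmT : ∀ u : T, (u : P) ∈ T ∪ Finset.univ.image x := fun u => Finset.mem_union_left _ u.2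
  have hmx : ∀ i, x i ∈ T ∪ Finset.univ.image x := fun i =>
    Finset.mem_union_right _ (Finset.mem_image_of_mem _ (Finset.mem_univ _))
  let φ : T ⊕ Fin m → (T ∪ Finset.univ.image x : Finset P) :=
    Sum.elim (fun u => ⟨u, hmT u⟩) fun i => ⟨x i, hmx i⟩
  have hφ : Function.Bijective φ := by
    constructor
    · rintro (u | i) (v | j) h
      · have h1 : ((φ (Sum.inl u) : (T ∪ Finset.univ.image x : Finset P)) : P) = φ (Sum.inl v) := congrArg _ h
        exact congrArg Sum.inl (Subtype.ext h1)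
      · have h1 : (u : P) = x j := congrArg Subtype.val h
        exact absurd (h1 ▸ u.2) (hT j)
      · have h1 : x i = (v : P) := congrArg Subtype.val h
        exact absurd (h1 ▸ v.2) (hT i)
      · exact congrArg Sum.inr (hx (congrArg Subtype.val h))
    · rintro ⟨v, hv⟩
      rcases Finset.mem_union.1 hv with h | h
      · exact ⟨Sum.inl ⟨v, h⟩, rfl⟩
      · obtain ⟨i, -, rfl⟩ := Finset.mem_image.1 h
        exact ⟨Sum.inr i, rfl⟩
  rw [← Matrix.det_submatrix_equiv_self (Equiv.ofBijective φ hφ)]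
  congr 1
  have hE : ∀ i j : T ⊕ Fin m, i ≠ j →
      bigE (fun u v : T => B.e u v) (fun i => typ B T (x i)) (fun p => B.e (x p.1.1) (x p.1.2)) i j =
        B.e (φ i) (φ j) := by
    intro i j hij
    rcases i with i | i <;> rcases j with j | j
    · rfl
    · rfl
    · exact B.sym _ _
    · change TRN.symm (fun p : TRN.Pairs m => B.e (x p.1.1) (x p.1.2)) i j = B.e (x i) (x j)
      unfold TRN.symm
      have h8 : i ≠ j := fun h => hij (congrArg Sum.inr h)
      by_cases h1 : i < j
      · rw [dif_pos h1]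
      · rw [dif_neg h1, dif_pos (lt_of_le_of_ne (not_lt.1 h1) h8.symm), B.sym]
  have hR : ∀ i : T ⊕ Fin m, bigR (fun u : T => B.ρ u) (fun i => typ B T (x i)) i = B.ρ (φ i) := by
    intro i
    rcases i with i | i <;> rfl
  ext i j
  rw [Matrix.submatrix_apply]
  unfold Pool.Agent.TRG.lap lapI
  by_cases h : i = j
  · subst h
    rw [if_pos rfl, if_pos rfl, hR]
    change B.ρ (φ i) + ∑ v ∈ (T ∪ Finset.univ.image x).erase (φ i), B.e (φ i) v = _
    congr 1
    symm
    refine Finset.sum_bij (fun k _ => ((φ k : (T ∪ Finset.univ.image x : Finset P)) : P)) ?_ ?_ ?_ ?_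
    · intro k hk
      refine Finset.mem_erase.2 ⟨fun h1 => (Finset.ne_of_mem_erase hk) (hφ.1 (Subtype.ext h1)), (φ k).2⟩
    · intro k _ l _ h1
      exact hφ.1 (Subtype.ext h1)
    · intro v hv
      obtain ⟨h1, h2⟩ := Finset.mem_erase.1 hv
      obtain ⟨k, hk⟩ := hφ.2 ⟨v, h2⟩
      refine ⟨k, Finset.mem_erase.2 ⟨fun h3 => ?_, Finset.mem_univ _⟩, by rw [hk]⟩
      rw [h3] at hk
      exact h1 (congrArg Subtype.val hk).symm
    · intro k hk
      exact hE i k (Finset.ne_of_mem_erase hk).symm
  · rw [if_neg h, if_neg fun h1 => h ((Equiv.ofBijective φ hφ).injective h1), hE i j h]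
    rfl

end

end TRQ
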