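import Pool.Agent.TRQ.D1
import Pool.Agent.TRQ.D2

/-! [DNA-D7] the exceptional sets -/

set_option autoImplicit false

open Finset Filter Topology
open scoped Classical

namespace TRQ

variable {P : Type}

/-- `log log X` -/
noncomputable def lX (X : ℝ) : ℝ := Real.log (Real.log X)

/-- the bound for the small primes -/
noncomputable def zX (X : ℝ) : ℝ := Real.exp (lX X ^ 3)

theorem lX_tendsto : Tendsto lX atTop atTop := Real.tendsto_log_atTop.comp Real.tendsto_log_atTop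

/-- the first properties of a large `X` -/
theorem eventually_X : ∀ᶠ X : ℝ in atTop, 2 ≤ X ∧ 2 ≤ lX X ∧ 3 ≤ zX X ∧ zX X ≤ X ∧ 1 ≤ Real.log X := by
  have h1 : ∀ᶠ X : ℝ in atTop, 3 ≤ X := eventually_ge_atTop 3
  have h2 : ∀ᶠ X : ℝ in atTop, 2 ≤ lX X := lX_tendsto.eventually_ge_atTop 2
  have h3 : ∀ᶠ X : ℝ in atTop, (lX X) ^ 3 ≤ Real.log X := by
    have h := (Real.isLittleO_pow_log_id_atTop (n := 3)).bound (zero_lt_one)
    have h' := Real.tendsto_log_atTop.eventually h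
    filter_upwards [h', eventually_ge_atTop 3] with X hX hX3
    have h4 : 0 ≤ Real.log X := Real.log_nonneg (by linarith)
    rw [one_mul, id, Real.norm_of_nonneg h4] at hX
    exact (le_abs_self _).trans hX
  have h5 : ∀ᶠ X : ℝ in atTop, 1 ≤ Real.log X := Real.tendsto_log_atTop.eventually_ge_atTop 1
  filter_upwards [h1, h2, h3, h5] with X h1 h2 h3 h5
  refine ⟨by linarith, h2, ?_, ?_, h5⟩
  · have : (8:ℝ) ≤ lX X ^ 3 := by
      calc (8:ℝ) = 2 ^ 3 := by norm_num
        _ ≤ _ := pow_le_pow_left₀ (by norm_num) h2 3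
    have := Real.add_one_le_exp (lX X ^ 3)
    unfold zX
    linarith
  · unfold zX
    rw [← Real.le_log_iff_exp_le (by linarith)]
    exact h3

theorem sum_two (B : Base P) {X z f1 f2 : ℝ} (hz : z ≤ X) :
    ∑ v ∈ B.pb X, (if (B.N v : ℝ) ≤ z then f1 else f2) / B.N v = f2 * B.H X + (f1 - f2) * B.H z := by
  have h1 : (B.pb X).filter (fun v => (B.N v : ℝ) ≤ z) = B.pb z := by
    ext v
    rw [Finset.mem_filter, B.mem_pb, B.mem_pb]
    exact ⟨fun h => h.2, fun h => ⟨h.trans hz, h⟩⟩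
  unfold Base.H
  rw [← h1, Finset.mul_sum, Finset.mul_sum, Finset.sum_filter, ← Finset.sum_add_distrib]
  refine Finset.sum_congr rfl fun v _ => ?_
  split_ifs
  · ring
  · ring

/-- the general form -/
theorem exc_gen (B : Sys0 P) {f1 f2 c0 : ℝ} (h2 : 0 ≤ f2) (h12 : f2 ≤ f1)
    (he : B.β * f2 + c0 * Real.log 2 < B.β) : ∃ c X₀ : ℝ, 0 < c ∧ ∀ X : ℝ, X₀ ≤ X → ∀ p : Finset P → Prop,
      (∀ S, p S → 1 ≤ (2:ℝ) ^ (c0 * lX X) * ∏ v ∈ S, (if (B.N v : ℝ) ≤ zX X then f1 else f2)) →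
      (((B.sb X).filter p).card : ℝ) ≤ X * (Real.log X) ^ (B.β - 1 - c) := by
  obtain ⟨C', hC', hs⟩ := sum_le B (max 1 f1) (le_max_left _ _)
  obtain ⟨C1, _, hH⟩ := abs_H_sub_le B
  obtain ⟨c, hc⟩ : ∃ c : ℝ, c = (B.β - B.β * f2 - c0 * Real.log 2) / 2 := ⟨_, rfl⟩
  have hc0 : 0 < c := by rw [hc]; linarith
  -- the final inequality, eventually
  have hfin : ∀ᶠ X : ℝ in atTop, Real.log C' + f1 * C1 + 3 * B.β * (f1 - f2) * Real.log (lX X) ≤ c * lX X := by
    have h0 : ∀ᶠ l : ℝ in atTop, Real.log C' + f1 * C1 + 3 * B.β * (f1 - f2) * Real.log l ≤ c * l := by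
      have hk : 0 < c / (2 * (3 * B.β * (f1 - f2) + 1)) := by
        have : 0 ≤ 3 * B.β * (f1 - f2) := by
          have := B.hβ
          exact mul_nonneg (by linarith) (by linarith)
        positivity
      have h := Real.isLittleO_log_id_atTop.bound hk
      have hconst : ∀ᶠ l : ℝ in atTop, Real.log C' + f1 * C1 ≤ c / 2 * l :=
        (tendsto_id.const_mul_atTop (by linarith : (0:ℝ) < c / 2)).eventually_ge_atTop _
      filter_upwards [h, hconst, eventually_ge_atTop 1] with l h1 h2 h3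
      have hl : 0 ≤ Real.log l := Real.log_nonneg h3
      rw [id, Real.norm_of_nonneg hl, Real.norm_of_nonneg (by linarith)] at h1
      have hD : 0 ≤ 3 * B.β * (f1 - f2) := by
        have := B.hβ
        exact mul_nonneg (by linarith) (by linarith)
      have h4 : (3 * B.β * (f1 - f2) + 1) * Real.log l ≤ c / 2 * l := by
        calc (3 * B.β * (f1 - f2) + 1) * Real.log l
            ≤ (3 * B.β * (f1 - f2) + 1) * (c / (2 * (3 * B.β * (f1 - f2) + 1)) * l) :=
              mul_le_mul_of_nonneg_left h1 (by linarith)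
          _ = c / 2 * l := by field_simp
      nlinarith
    exact lX_tendsto.eventually h0
  obtain ⟨X₀, hX₀⟩ := eventually_atTop.1 (hfin.and eventually_X)
  refine ⟨c, X₀, hc0, fun X hX p hp => ?_⟩
  obtain ⟨hf, hX2, hl2, hz3, hzX, hL1⟩ := hX₀ X hX
  have hX0 : 0 < X := by linarith
  have hL0 : 0 < Real.log X := by linarith
  -- the weight
  have hnn : ∀ v : P, 0 ≤ (if (B.N v : ℝ) ≤ zX X then f1 else f2) := fun v => by
    split_ifs <;> linarith
  have hle : ∀ v : P, (if (B.N v : ℝ) ≤ zX X then f1 else f2) ≤ max 1 f1 := fun v => by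
    split_ifs
    · exact le_max_right _ _
    · exact h12.trans (le_max_right _ _)
  have hW : 0 < (2:ℝ) ^ (c0 * lX X) := Real.rpow_pos_of_pos (by norm_num) _
  have k1 : (((B.sb X).filter p).card : ℝ) ≤
      (2:ℝ) ^ (c0 * lX X) * ∑ S ∈ B.sb X, ∏ v ∈ S, (if (B.N v : ℝ) ≤ zX X then f1 else f2) := by
    calc (((B.sb X).filter p).card : ℝ) = ∑ S ∈ (B.sb X).filter p, (1:ℝ) := by
          rw [Finset.sum_const, nsmul_eq_mul, mul_one]
      _ ≤ ∑ S ∈ (B.sb X).filter p, (2:ℝ) ^ (c0 * lX X) * ∏ v ∈ S, (if (B.N v : ℝ) ≤ zX X then f1 else f2) :=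
          Finset.sum_le_sum fun S hS => hp S (Finset.mem_filter.1 hS).2
      _ ≤ ∑ S ∈ B.sb X, (2:ℝ) ^ (c0 * lX X) * ∏ v ∈ S, (if (B.N v : ℝ) ≤ zX X then f1 else f2) := by
          refine Finset.sum_le_sum_of_subset_of_nonneg (Finset.filter_subset _ _) fun S _ _ => ?_
          exact mul_nonneg hW.le (Finset.prod_nonneg fun v _ => hnn v)
      _ = _ := by rw [Finset.mul_sum]
  have k2 := hs (fun v => if (B.N v : ℝ) ≤ zX X then f1 else f2) hnn hle X hX2
  have k3 := sum_two B.toBase (f1 := f1) (f2 := f2) hzX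
  rw [k3] at k2
  have hH1 : B.H X ≤ B.β * lX X + C1 := by
    have := (abs_le.1 (hH X (hz3.trans hzX))).2
    unfold lX; linarith
  have hH2 : B.H (zX X) ≤ B.β * (3 * Real.log (lX X)) + C1 := by
    have := (abs_le.1 (hH (zX X) hz3)).2
    have e : Real.log (Real.log (zX X)) = 3 * Real.log (lX X) := by
      unfold zX
      rw [Real.log_exp, Real.log_pow]; norm_num
    rw [e] at this
    linarith
  have k4 : f2 * B.H X + (f1 - f2) * B.H (zX X) ≤
      f2 * B.β * lX X + f1 * C1 + 3 * B.β * (f1 - f2) * Real.log (lX X) := by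
    have a1 := mul_le_mul_of_nonneg_left hH1 h2
    have a2 := mul_le_mul_of_nonneg_left hH2 (by linarith : (0:ℝ) ≤ f1 - f2)
    nlinarith
  refine (k1.trans (mul_le_mul_of_nonneg_left k2 hW.le)).trans ?_
  have e1 : (2:ℝ) ^ (c0 * lX X) = Real.exp (c0 * lX X * Real.log 2) := by
    rw [Real.rpow_def_of_pos (by norm_num)]; congr 1; ring
  have e2 : X / Real.log X = X * Real.exp (-lX X) := by
    unfold lX; rw [Real.exp_neg, Real.exp_log hL0]; rfl
  have e3 : (Real.log X) ^ (B.β - 1 - c) = Real.exp (lX X * (B.β - 1 - c)) := by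
    rw [Real.rpow_def_of_pos hL0]; rfl
  rw [e1, e2, e3]
  calc Real.exp (c0 * lX X * Real.log 2) * (C' * (X * Real.exp (-lX X)) *
        Real.exp (f2 * B.H X + (f1 - f2) * B.H (zX X)))
      = X * Real.exp (c0 * lX X * Real.log 2 + Real.log C' + -lX X +
        (f2 * B.H X + (f1 - f2) * B.H (zX X))) := by
          rw [Real.exp_add (c0 * lX X * Real.log 2 + Real.log C' + -lX X),
            Real.exp_add (c0 * lX X * Real.log 2 + Real.log C'), Real.exp_add (c0 * lX X * Real.log 2),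
            Real.exp_log hC']; ring
    _ ≤ X * Real.exp (lX X * (B.β - 1 - c)) := by
        refine mul_le_mul_of_nonneg_left (Real.exp_le_exp.2 ?_) hX0.le
        have : lX X * (2 * c) = lX X * (B.β - B.β * f2 - c0 * Real.log 2) := by rw [hc]; ring
        nlinarith

/-- [DNA-D7a] PROOF. At most `∑ 2^(#S - 2 ℓ)`, `sum_le` with `f = 2`, `abs_H_sub_le`: `C X (log X)^(-1 + 2β - 2 log 2)`, `β ≤ 1`. -/
theorem card_many (B : Sys0 P) : ∃ c X₀ : ℝ, 0 < c ∧ ∀ X : ℝ, X₀ ≤ X →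
    (((B.sb X).filter fun S => 2 * lX X < S.card).card : ℝ) ≤ X * (Real.log X) ^ (B.β - 1 - c) := by
  have he : B.β * 2 + (-2) * Real.log 2 < B.β := by
    have := Real.log_two_gt_d9
    have := B.hβ1
    linarith
  obtain ⟨c, X₀, hc, h⟩ := exc_gen B (f1 := 2) (f2 := 2) (c0 := -2) (by norm_num) le_rfl he
  refine ⟨c, X₀, hc, fun X hX => h X hX _ fun S hS => ?_⟩
  simp only [ite_self, Finset.prod_const]
  rw [← Real.rpow_natCast, ← Real.rpow_add (by norm_num)]
  exact Real.one_le_rpow (by norm_num) (by linarith)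

theorem prod_ite_const {S : Finset P} (p : P → Prop) (f1 f2 : ℝ) :
    ∏ v ∈ S, (if p v then f1 else f2) = f1 ^ (S.filter p).card * f2 ^ (S.filter fun v => ¬ p v).card := by
  rw [Finset.prod_ite, Finset.prod_const, Finset.prod_const]

/-- [DNA-D7b] PROOF. At most `∑ 2^(β ℓ / 2 - #{v ∈ S | z < N v})`, `sum_le` with `f = 1/2` for `N v > z`, `f = 1` for `N v ≤ z`:
`C X (log X)^(-1 + β/2 + (β/2) log 2) · exp (β log log z)`, `log log z = 3 log ℓ`. -/
theorem card_few_large (B : Sys0 P) : ∃ c X₀ : ℝ, 0 < c ∧ ∀ X : ℝ, X₀ ≤ X →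
    (((B.sb X).filter fun S => ((S.filter fun v => zX X < (B.N v : ℝ)).card : ℝ) ≤ B.β / 2 * lX X).card : ℝ) ≤
      X * (Real.log X) ^ (B.β - 1 - c) := by
  have he : B.β * (1 / 2) + (B.β / 2) * Real.log 2 < B.β := by
    have := Real.log_two_lt_d9
    have := B.hβ
    nlinarith
  obtain ⟨c, X₀, hc, h⟩ := exc_gen B (f1 := 1) (f2 := 1 / 2) (c0 := B.β / 2) (by norm_num) (by norm_num) he
  refine ⟨c, X₀, hc, fun X hX => h X hX _ fun S hS => ?_⟩
  rw [prod_ite_const, one_pow, one_mul]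
  have e : (S.filter fun v => ¬ (B.N v : ℝ) ≤ zX X) = S.filter fun v => zX X < (B.N v : ℝ) := by
    refine Finset.filter_congr fun v _ => ?_
    rw [not_le]
  rw [e, one_div, inv_pow, ← Real.rpow_natCast, ← Real.rpow_neg (by norm_num), ← Real.rpow_add (by norm_num)]
  exact Real.one_le_rpow (by norm_num) (by linarith)

/-- [DNA-D7c] PROOF. At most `∑ 2^(#{v ∈ S | N v ≤ z} - β ℓ / 4)`, `sum_le` with `f = 2` for `N v ≤ z`, `f = 1` for `N v > z`. -/
theorem card_many_small (B : Sys0 P) : ∃ c X₀ : ℝ, 0 < c ∧ ∀ X : ℝ, X₀ ≤ X →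
    (((B.sb X).filter fun S => B.β / 4 * lX X < ((S.filter fun v => (B.N v : ℝ) ≤ zX X).card : ℝ)).card : ℝ) ≤
      X * (Real.log X) ^ (B.β - 1 - c) := by
  have he : B.β * 1 + (-(B.β / 4)) * Real.log 2 < B.β := by
    have := Real.log_two_gt_d9
    have := B.hβ
    nlinarith
  obtain ⟨c, X₀, hc, h⟩ := exc_gen B (f1 := 2) (f2 := 1) (c0 := -(B.β / 4)) (by norm_num) (by norm_num) he
  refine ⟨c, X₀, hc, fun X hX => h X hX _ fun S hS => ?_⟩
  rw [prod_ite_const, one_pow, mul_one, ← Real.rpow_natCast, ← Real.rpow_add (by norm_num)]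
  exact Real.one_le_rpow (by norm_num) (by linarith)

end TRQ
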