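import Pool.Agent.TRQ.D7

/-! [DNA-D7d] the exceptional sets, last condition -/

set_option autoImplicit false

open Finset Filter Topology
open scoped Classical

namespace TRQ

variable {P : Type}

private theorem d7d_xi_or (B : Base P) (A : Finset P) (ε : ZMod 2) (v : P) :
    B.xi A ε v = 1 ∨ B.xi A ε v = -1 := by
  unfold Base.xi
  split_ifs
  · exact Or.inl rfl
  · exact Or.inr rfl

private theorem d7d_N_pos (B : Base P) (v : P) : (0 : ℝ) < B.N v := by
  have := B.two v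
  exact_mod_cast (by omega : 0 < B.N v)

/-- union over `A`, `ε` -/
private theorem d7d_union (B : Base P) (X z k : ℝ) :
    (((B.sb X).filter fun S => (S.card : ℝ) ≤ k ∧ ∃ A ⊆ S.filter (fun v => (B.N v : ℝ) ≤ z),
      ∃ ε : ZMod 2, (A.Nonempty ∨ ε ≠ 0) ∧ ∀ v ∈ S, z < (B.N v : ℝ) → B.xi A ε v = 1).card : ℝ) ≤
    ∑ q ∈ ((B.pb z).powerset ×ˢ (Finset.univ : Finset (ZMod 2))).filter
        (fun q => (q.1.card : ℝ) ≤ k ∧ (q.1.Nonempty ∨ q.2 ≠ 0)),
      (((B.sb X).filter fun S => q.1 ⊆ S ∧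
        ∀ v ∈ S, z < (B.N v : ℝ) → B.xi q.1 q.2 v = 1).card : ℝ) := by
  rw [← Nat.cast_sum]
  refine Nat.cast_le.2 (le_trans (Finset.card_le_card ?_) Finset.card_biUnion_le)
  intro S hS
  rw [Finset.mem_filter] at hS
  obtain ⟨hS, hk, A, hA, ε, hAε, hv⟩ := hS
  have hAS : A ⊆ S := fun v hv => (Finset.mem_filter.1 (hA hv)).1
  rw [Finset.mem_biUnion]
  refine ⟨(A, ε), ?_, ?_⟩
  · rw [Finset.mem_filter, Finset.mem_product, Finset.mem_powerset]
    refine ⟨⟨fun v hv => ?_, Finset.mem_univ _⟩, ?_, hAε⟩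
    · exact B.mem_pb.2 (Finset.mem_filter.1 (hA hv)).2
    · refine le_trans ?_ hk
      exact_mod_cast Finset.card_le_card hAS
  · rw [Finset.mem_filter]
    exact ⟨hS, hAS, hv⟩

/-- the weight -/
private noncomputable def d7d_f (B : Base P) (z : ℝ) (A : Finset P) (ε : ZMod 2) (v : P) : ℝ :=
  if (B.N v : ℝ) ≤ z then 1 else (1 + B.xi A ε v) / 2

private theorem d7d_f_nonneg (B : Base P) (z : ℝ) (A : Finset P) (ε : ZMod 2) (v : P) :
    0 ≤ d7d_f B z A ε v := by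
  unfold d7d_f
  split_ifs
  · exact zero_le_one
  · rcases d7d_xi_or B A ε v with h | h <;> rw [h] <;> norm_num

private theorem d7d_f_le (B : Base P) (z : ℝ) (A : Finset P) (ε : ZMod 2) (v : P) :
    d7d_f B z A ε v ≤ 1 := by
  unfold d7d_f
  split_ifs
  · exact le_rfl
  · rcases d7d_xi_or B A ε v with h | h <;> rw [h] <;> norm_num

/-- the sets which contain `A` -/
private theorem d7d_card_le (B : Base P) (X z : ℝ) (A : Finset P) (ε : ZMod 2) :
    (((B.sb X).filter fun S => A ⊆ S ∧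
      ∀ v ∈ S, z < (B.N v : ℝ) → B.xi A ε v = 1).card : ℝ) ≤
    ∑ S ∈ B.sb (X / B.nS A), ∏ v ∈ S, d7d_f B z A ε v := by
  set F := (B.sb X).filter fun S => A ⊆ S ∧ ∀ v ∈ S, z < (B.N v : ℝ) → B.xi A ε v = 1 with hF
  have hinj : Set.InjOn (fun S : Finset P => S \ A) (F : Set (Finset P)) := by
    intro S hS S' hS' h
    have h1 : A ⊆ S := (Finset.mem_filter.1 (Finset.mem_coe.1 hS)).2.1
    have h2 : A ⊆ S' := (Finset.mem_filter.1 (Finset.mem_coe.1 hS')).2.1
    have h3 : S \ A = S' \ A := h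
    rw [← Finset.sdiff_union_of_subset h1, ← Finset.sdiff_union_of_subset h2, h3]
  rw [← Finset.card_image_of_injOn hinj]
  have h1 : ((F.image fun S : Finset P => S \ A).card : ℝ) =
      ∑ S ∈ F.image (fun S : Finset P => S \ A), ∏ v ∈ S, d7d_f B z A ε v := by
    rw [Finset.card_eq_sum_ones, Nat.cast_sum]
    refine Finset.sum_congr rfl fun S hS => ?_
    obtain ⟨T, hT, rfl⟩ := Finset.mem_image.1 hS
    rw [Nat.cast_one]
    symm
    refine Finset.prod_eq_one fun v hv => ?_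
    unfold d7d_f
    split_ifs with hz
    · rfl
    · rw [(Finset.mem_filter.1 hT).2.2 v (Finset.mem_sdiff.1 hv).1 (not_le.1 hz)]
      norm_num
  rw [h1]
  refine Finset.sum_le_sum_of_subset_of_nonneg ?_ fun S _ _ =>
    Finset.prod_nonneg fun v _ => d7d_f_nonneg B z A ε v
  intro S hS
  obtain ⟨T, hT, rfl⟩ := Finset.mem_image.1 hS
  have h2 := Finset.mem_filter.1 hT
  rw [B.mem_sb, le_div_iff₀ (by exact_mod_cast B.nS_pos A)]
  refine le_trans (le_of_eq ?_) (B.mem_sb.1 h2.1)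
  rw [← Nat.cast_mul]
  congr 1
  unfold Base.nS
  exact Finset.prod_sdiff h2.2.1

/-- the exponent -/
private theorem d7d_exp_le (B : Sys P) (z : ℝ) (A : Finset P) (ε : ZMod 2) (hA : A ⊆ B.pb z)
    (hAε : A.Nonempty ∨ ε ≠ 0) (Y : ℝ) (hY : 1 ≤ Y) :
    ∑ v ∈ B.pb Y, d7d_f B.toBase z A ε v / B.N v ≤
      B.H Y / 2 + (Real.log (Real.log (B.nS A + 3)) + B.C) / 2 + 3 / 2 * B.H z := by
  have h1 : ∀ v, d7d_f B.toBase z A ε v / B.N v = 1 / 2 * (1 / (B.N v : ℝ)) +
      1 / 2 * (B.xi A ε v / B.N v) +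
      (if (B.N v : ℝ) ≤ z then (1 - B.xi A ε v) / 2 / B.N v else 0) := by
    intro v
    unfold d7d_f
    split_ifs
    · field_simp
      ring
    · ring
  have h2 : ∑ v ∈ B.pb Y, d7d_f B.toBase z A ε v / B.N v = 1 / 2 * B.H Y +
      1 / 2 * ∑ v ∈ B.pb Y, B.xi A ε v / B.N v +
      ∑ v ∈ B.pb Y, (if (B.N v : ℝ) ≤ z then (1 - B.xi A ε v) / 2 / B.N v else 0) := by
    rw [Finset.sum_congr rfl fun v _ => h1 v, Finset.sum_add_distrib, Finset.sum_add_distrib,
      ← Finset.mul_sum, ← Finset.mul_sum]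
    rfl
  have h3 : ∑ v ∈ B.pb Y, (if (B.N v : ℝ) ≤ z then (1 - B.xi A ε v) / 2 / B.N v else 0) ≤
      B.H z := by
    rw [← Finset.sum_filter]
    unfold Base.H
    refine le_trans (Finset.sum_le_sum (g := fun v => 1 / (B.N v : ℝ)) fun v _ => ?_)
      (Finset.sum_le_sum_of_subset_of_nonneg ?_ fun v _ _ => ?_)
    · have hN := d7d_N_pos B.toBase v
      rw [div_le_div_iff_of_pos_right hN]
      rcases d7d_xi_or B.toBase A ε v with h | h <;> rw [h] <;> norm_num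
    · intro v hv
      exact B.mem_pb.2 (Finset.mem_filter.1 hv).2
    · exact le_of_lt (div_pos one_pos (d7d_N_pos B.toBase v))
  have h4 : ∑ v ∈ B.pb Y, B.xi A ε v / B.N v ≤
      Real.log (Real.log (B.nS A + 3)) + B.C + B.H z := by
    have h5 : ∑ v ∈ B.pb Y, B.xi A ε v / B.N v = ∑ v ∈ B.pb Y \ A, B.xi A ε v / B.N v +
        ∑ v ∈ B.pb Y ∩ A, B.xi A ε v / B.N v := by
      rw [add_comm, ← Finset.sum_inter_add_sum_sdiff (B.pb Y) A]
    rw [h5]
    have h6 : ∑ v ∈ B.pb Y ∩ A, B.xi A ε v / B.N v ≤ B.H z := by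
      unfold Base.H
      refine le_trans (Finset.sum_le_sum (g := fun v => 1 / (B.N v : ℝ)) fun v _ => ?_)
        (Finset.sum_le_sum_of_subset_of_nonneg ?_ fun v _ _ => ?_)
      · have hN := d7d_N_pos B.toBase v
        rw [div_le_div_iff_of_pos_right hN]
        rcases d7d_xi_or B.toBase A ε v with h | h <;> rw [h] <;> norm_num
      · exact fun v hv => hA (Finset.mem_inter.1 hv).2
      · exact le_of_lt (div_pos one_pos (d7d_N_pos B.toBase v))
    have h7 := B.chr A ε hAε Y hY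
    linarith
  rw [h2]
  linarith

private theorem d7d_H_mono (B : Base P) {x y : ℝ} (h : x ≤ y) : B.H x ≤ B.H y := by
  unfold Base.H
  refine Finset.sum_le_sum_of_subset_of_nonneg ?_ fun v _ _ =>
    le_of_lt (div_pos one_pos (d7d_N_pos B v))
  intro v hv
  exact B.mem_pb.2 (le_trans (B.mem_pb.1 hv) h)

private theorem d7d_nS_le (B : Base P) (t k : ℝ) (ht : 0 ≤ t) (A : Finset P)
    (hA : A ⊆ B.pb (Real.exp t)) (hk : (A.card : ℝ) ≤ k) :
    (B.nS A : ℝ) ≤ Real.exp (k * t) := by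
  unfold Base.nS
  rw [Nat.cast_prod]
  calc ∏ v ∈ A, (B.N v : ℝ) ≤ ∏ _v ∈ A, Real.exp t :=
        Finset.prod_le_prod (fun v _ => le_of_lt (d7d_N_pos B v)) fun v hv => B.mem_pb.1 (hA hv)
    _ = Real.exp ((A.card : ℝ) * t) := by rw [Finset.prod_const, ← Real.exp_nat_mul]
    _ ≤ Real.exp (k * t) := Real.exp_le_exp.2 (mul_le_mul_of_nonneg_right hk ht)

/-- the bound for one `A` -/
private theorem d7d_one (B : Sys P) {C₁ C₂ : ℝ} (hC₁ : 0 < C₁)
    (h₁ : ∀ f : P → ℝ, (∀ v, 0 ≤ f v) → (∀ v, f v ≤ 1) → ∀ X : ℝ, 2 ≤ X →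
      ∑ S ∈ B.sb X, ∏ v ∈ S, f v ≤ C₁ * (X / Real.log X) *
        Real.exp (∑ v ∈ B.pb X, f v / B.N v))
    (h₂ : ∀ x : ℝ, 3 ≤ x → |B.H x - B.β * Real.log (Real.log x)| ≤ C₂)
    (X : ℝ) (hX : 1 < X) (l : ℝ) (hl : l = lX X) (hl2 : 2 ≤ l) (hL : Real.log X = Real.exp l)
    (hbig : 4 * l ^ 4 ≤ Real.exp l)
    (A : Finset P) (ε : ZMod 2) (hA : A ⊆ B.pb (zX X)) (hk : (A.card : ℝ) ≤ 2 * l)
    (hAε : A.Nonempty ∨ ε ≠ 0) :
    (((B.sb X).filter fun S => A ⊆ S ∧
      ∀ v ∈ S, zX X < (B.N v : ℝ) → B.xi A ε v = 1).card : ℝ) ≤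
    2 * C₁ * Real.exp (2 * C₂ + B.C / 2) * X * Real.exp (B.β / 2 * l - l) * l ^ 8 *
      (1 / (B.nS A : ℝ)) := by
  have hz : zX X = Real.exp (l ^ 3) := by unfold zX; rw [hl]
  have hl0 : 0 < l := by linarith
  have hn : (B.nS A : ℝ) ≤ Real.exp (2 * l ^ 4) := by
    have := d7d_nS_le B.toBase (l ^ 3) (2 * l) (by positivity) A (by rw [← hz]; exact hA) hk
    calc (B.nS A : ℝ) ≤ _ := this
      _ = Real.exp (2 * l ^ 4) := by ring_nf
  have hn0 : (0 : ℝ) < B.nS A := by exact_mod_cast B.nS_pos A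
  set Y := X / (B.nS A : ℝ) with hY
  have hX0 : 0 < X := by linarith
  have hY0 : 0 < Y := div_pos hX0 hn0
  have hlogY : Real.exp l / 2 ≤ Real.log Y := by
    rw [hY, Real.log_div hX0.ne' hn0.ne', hL]
    have h1 : Real.log (B.nS A : ℝ) ≤ 2 * l ^ 4 := by
      rw [← Real.log_exp (2 * l ^ 4)]
      exact Real.log_le_log hn0 hn
    linarith
  have hexpl : 2 ≤ Real.exp l := by
    have := Real.add_one_le_exp l
    linarith
  have hY2 : 2 ≤ Y := by
    have h1 : 1 ≤ Real.log Y := by linarith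
    have h2 : Real.exp 1 ≤ Y := by
      rw [← Real.exp_log hY0]
      exact Real.exp_le_exp.2 h1
    have h3 := Real.add_one_le_exp (1 : ℝ)
    linarith
  have h3 := d7d_card_le B.toBase X (zX X) A ε
  have h4 := h₁ (d7d_f B.toBase (zX X) A ε) (d7d_f_nonneg B.toBase (zX X) A ε)
    (d7d_f_le B.toBase (zX X) A ε) Y hY2
  have h5 := d7d_exp_le B (zX X) A ε hA hAε Y (by linarith)
  -- `H Y`
  have hn1 : (1 : ℝ) ≤ B.nS A := by exact_mod_cast B.nS_pos A
  have hYX : Y ≤ X := by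
    rw [hY]
    exact div_le_self hX0.le hn1
  have hX3 : 3 ≤ X := by
    have h1 : 2 ≤ Real.log X := by rw [hL]; exact hexpl
    have h2 : Real.exp 2 ≤ X := by
      rw [← Real.exp_log hX0]
      exact Real.exp_le_exp.2 h1
    have h3 := Real.add_one_le_exp (2 : ℝ)
    linarith
  have hHY : B.H Y ≤ B.β * l + C₂ := by
    have h1 := (abs_le.1 (h₂ X hX3)).2
    have h2 := d7d_H_mono B.toBase hYX
    have h6 : Real.log (Real.log X) = l := by rw [hL, Real.log_exp]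
    rw [h6] at h1
    linarith
  have hl3 : (8 : ℝ) ≤ l ^ 3 := by
    calc (8 : ℝ) = 2 ^ 3 := by norm_num
      _ ≤ l ^ 3 := by gcongr
  have hlogl : 0 < Real.log l := Real.log_pos (by linarith)
  have hHz : B.H (zX X) ≤ 3 * Real.log l + C₂ := by
    have hz3 : 3 ≤ zX X := by
      rw [hz]
      have := Real.add_one_le_exp (l ^ 3)
      linarith
    have h1 := (abs_le.1 (h₂ (zX X) hz3)).2
    have h6 : Real.log (Real.log (zX X)) = 3 * Real.log l := by
      rw [hz, Real.log_exp, Real.log_pow]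
      norm_num
    rw [h6] at h1
    have h7 : B.β * (3 * Real.log l) ≤ 1 * (3 * Real.log l) := by
      have := B.hβ1
      gcongr
    linarith
  have hll : Real.log (Real.log (B.nS A + 3)) ≤ 6 * Real.log l := by
    have h1 : (B.nS A : ℝ) + 3 ≤ Real.exp (l ^ 6) := by
      have h6 : (2 : ℝ) ^ 4 ≤ l ^ 4 := by gcongr
      have h7 : 3 * l ^ 4 ≤ l ^ 6 := by
        have h9 : (2 : ℝ) ^ 2 ≤ l ^ 2 := by gcongr
        have h8 : l ^ 6 = l ^ 2 * l ^ 4 := by ring
        rw [h8]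
        have : (3 : ℝ) ≤ l ^ 2 := by linarith
        gcongr
      have h10 : (1 : ℝ) ≤ Real.exp (2 * l ^ 4) := Real.one_le_exp (by positivity)
      have h11 : (4 : ℝ) ≤ Real.exp (l ^ 4) := by
        have := Real.add_one_le_exp (l ^ 4)
        linarith
      calc (B.nS A : ℝ) + 3 ≤ Real.exp (2 * l ^ 4) + 3 * Real.exp (2 * l ^ 4) := by linarith
        _ = 4 * Real.exp (2 * l ^ 4) := by ring
        _ ≤ Real.exp (l ^ 4) * Real.exp (2 * l ^ 4) := by gcongr
        _ = Real.exp (3 * l ^ 4) := by rw [← Real.exp_add]; ring_nf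
        _ ≤ Real.exp (l ^ 6) := Real.exp_le_exp.2 h7
    have h6 : Real.log (B.nS A + 3) ≤ l ^ 6 := by
      rw [← Real.log_exp (l ^ 6)]
      exact Real.log_le_log (by positivity) h1
    have h7 : 0 < Real.log ((B.nS A : ℝ) + 3) := Real.log_pos (by linarith)
    calc Real.log (Real.log (B.nS A + 3)) ≤ Real.log (l ^ 6) := Real.log_le_log h7 h6
      _ = 6 * Real.log l := by rw [Real.log_pow]; norm_num
  have h6 : ∑ v ∈ B.pb Y, d7d_f B.toBase (zX X) A ε v / B.N v ≤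
      B.β / 2 * l + 8 * Real.log l + (2 * C₂ + B.C / 2) := by
    linarith
  have h7 : Real.exp (∑ v ∈ B.pb Y, d7d_f B.toBase (zX X) A ε v / B.N v) ≤
      Real.exp (B.β / 2 * l) * l ^ 8 * Real.exp (2 * C₂ + B.C / 2) := by
    refine le_trans (Real.exp_le_exp.2 h6) (le_of_eq ?_)
    rw [Real.exp_add, Real.exp_add]
    congr 2
    rw [← Real.exp_log (show 0 < l ^ 8 by positivity), Real.log_pow]
    norm_num
  have h8 : Y / Real.log Y ≤ 2 * X * Real.exp (-l) * (1 / (B.nS A : ℝ)) := by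
    have h9 : 0 < Real.exp l / 2 := by positivity
    calc Y / Real.log Y ≤ Y / (Real.exp l / 2) := by gcongr
      _ = 2 * X * Real.exp (-l) * (1 / (B.nS A : ℝ)) := by
          rw [hY, Real.exp_neg]
          field_simp
  have h9 : 0 ≤ Y / Real.log Y := div_nonneg hY0.le (by linarith)
  calc (((B.sb X).filter fun S => A ⊆ S ∧
        ∀ v ∈ S, zX X < (B.N v : ℝ) → B.xi A ε v = 1).card : ℝ)
      ≤ C₁ * (Y / Real.log Y) *
        Real.exp (∑ v ∈ B.pb Y, d7d_f B.toBase (zX X) A ε v / B.N v) := le_trans h3 h4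
    _ ≤ C₁ * (2 * X * Real.exp (-l) * (1 / (B.nS A : ℝ))) *
        (Real.exp (B.β / 2 * l) * l ^ 8 * Real.exp (2 * C₂ + B.C / 2)) := by gcongr
    _ = 2 * C₁ * Real.exp (2 * C₂ + B.C / 2) * X * Real.exp (B.β / 2 * l - l) * l ^ 8 *
      (1 / (B.nS A : ℝ)) := by
        have h10 : Real.exp (B.β / 2 * l - l) = Real.exp (B.β / 2 * l) * Real.exp (-l) := by
          rw [← Real.exp_add, sub_eq_add_neg]
        rw [h10]
        ring

/-- [DNA-D7d] PROOF. `ℓ = lX X`, `z = zX X`. For `A ⊆ pb z`, `#A ≤ 2 ℓ`: `nS A ≤ z^(2ℓ) = exp (2 ℓ^4) ≤ √X`. The number of the `S ∈ sb X` with `A ⊆ S` and `xi A ε v = 1` for all `v ∈ S` with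
`N v > z` is at most (`S' = S \ A`) `∑_{S' ∈ sb (X / nS A)} ∏ f v`, `f v = 1` for `N v ≤ z`, `f v = (1 + xi A ε v)/2` for `N v > z`. By `sum_le` this is at most
`C (X / nS A) / log (X / nS A) · exp (H z + (H X' - H z)/2 + (1/2) ∑_{z < N v ≤ X'} xi A ε v / N v)`, `X' = X / nS A`, `log X' ≥ (1/2) log X`; by `chr` for `x = X'` and the trivial lower bound
`- H z` for the sum over `N v ≤ z` the last sum is at most `log log (nS A + 3) + C + H z`, and `nS A ≤ exp (2 ℓ^4)`: so everything is at most `C (X / nS A) (log X)^(-1 + β/2) ℓ^C`. Sum over `ε`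
and `A`: `∑ 1 / nS A ≤ exp (H z) ≤ C ℓ^(3β)` (`sum_powerset_le`). -/
theorem card_dep (B : Sys P) : ∃ c X₀ : ℝ, 0 < c ∧ ∀ X : ℝ, X₀ ≤ X →
    (((B.sb X).filter fun S => (S.card : ℝ) ≤ 2 * lX X ∧ ∃ A ⊆ S.filter (fun v => (B.N v : ℝ) ≤ zX X), ∃ ε : ZMod 2,
      (A.Nonempty ∨ ε ≠ 0) ∧ ∀ v ∈ S, zX X < (B.N v : ℝ) → B.xi A ε v = 1).card : ℝ) ≤
      X * (Real.log X) ^ (B.β - 1 - c) := by
  obtain ⟨C₁, hC₁, h₁⟩ := sum_le B.toSys0 1 le_rfl
  obtain ⟨C₂, hC₂, h₂⟩ := abs_H_sub_le B.toSys0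
  have hβ := B.hβ
  set K := 2 * C₁ * Real.exp (2 * C₂ + B.C / 2) with hK
  have hK0 : 0 < K := by positivity
  have e1 : ∀ᶠ l : ℝ in atTop, 4 * l ^ 4 ≤ Real.exp l := by
    have h := (isLittleO_pow_exp_pos_mul_atTop (k := 4) (b := 1) one_pos).bound
      (show (0 : ℝ) < 1 / 4 by norm_num)
    filter_upwards [h, eventually_ge_atTop 0] with l hl hl0
    rw [Real.norm_of_nonneg (by positivity), Real.norm_of_nonneg (by positivity), one_mul] at hl
    linarith
  have e2 : ∀ᶠ l : ℝ in atTop, 2 * K * Real.exp C₂ * l ^ 11 ≤ Real.exp (B.β / 4 * l) := by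
    have h := (isLittleO_pow_exp_pos_mul_atTop (k := 11) (b := B.β / 4) (by positivity)).bound
      (show (0 : ℝ) < 1 / (2 * K * Real.exp C₂) by positivity)
    filter_upwards [h, eventually_ge_atTop 0] with l hl hl0
    rw [Real.norm_of_nonneg (by positivity), Real.norm_of_nonneg (by positivity)] at hl
    rw [one_div, inv_mul_eq_div, le_div_iff₀ (by positivity)] at hl
    linarith
  obtain ⟨l₀, hl₀⟩ := Filter.eventually_atTop.1 (e1.and e2)
  refine ⟨B.β / 4, Real.exp (Real.exp (max l₀ 2)), by positivity, fun X hX => ?_⟩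
  have hX0 : 0 < X := lt_of_lt_of_le (Real.exp_pos _) hX
  have hlog : Real.exp (max l₀ 2) ≤ Real.log X := by
    rw [← Real.log_exp (Real.exp (max l₀ 2))]
    exact Real.log_le_log (Real.exp_pos _) hX
  have hlog0 : 0 < Real.log X := lt_of_lt_of_le (Real.exp_pos _) hlog
  have hlX : max l₀ 2 ≤ lX X := by
    unfold lX
    rw [← Real.log_exp (max l₀ 2)]
    exact Real.log_le_log (Real.exp_pos _) hlog
  set l := lX X with hl
  have hl2 : 2 ≤ l := le_trans (le_max_right _ _) hlX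
  have hl0 : 0 < l := by linarith
  have hL : Real.log X = Real.exp l := by
    rw [hl]
    unfold lX
    rw [Real.exp_log hlog0]
  have hX1 : 1 < X := by
    by_contra hcon
    have := Real.log_nonpos hX0.le (not_lt.1 hcon)
    linarith
  obtain ⟨hb1, hb2⟩ := hl₀ l (le_trans (le_max_left _ _) hlX)
  have hHz : B.H (zX X) ≤ 3 * Real.log l + C₂ := by
    have hz : zX X = Real.exp (l ^ 3) := by unfold zX; rw [hl]
    have hl3 : (8 : ℝ) ≤ l ^ 3 := by
      calc (8 : ℝ) = 2 ^ 3 := by norm_num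
        _ ≤ l ^ 3 := by gcongr
    have hlogl : 0 < Real.log l := Real.log_pos (by linarith)
    have hz3 : 3 ≤ zX X := by
      rw [hz]
      have := Real.add_one_le_exp (l ^ 3)
      linarith
    have h1 := (abs_le.1 (h₂ (zX X) hz3)).2
    have h6 : Real.log (Real.log (zX X)) = 3 * Real.log l := by
      rw [hz, Real.log_exp, Real.log_pow]
      norm_num
    rw [h6] at h1
    have h7 : B.β * (3 * Real.log l) ≤ 1 * (3 * Real.log l) := by
      have := B.hβ1
      gcongr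
    linarith
  have hsum : ∑ A ∈ (B.pb (zX X)).powerset, 1 / (B.nS A : ℝ) ≤ Real.exp C₂ * l ^ 3 := by
    have h1 : ∀ A ∈ (B.pb (zX X)).powerset, 1 / (B.nS A : ℝ) = ∏ v ∈ A, (1 / (B.N v : ℝ)) := by
      intro A _
      unfold Base.nS
      rw [Nat.cast_prod, Finset.prod_div_distrib, Finset.prod_const_one]
    rw [Finset.sum_congr rfl h1]
    refine le_trans (sum_powerset_le fun v _ => le_of_lt (div_pos one_pos
      (d7d_N_pos B.toBase v))) ?_
    calc Real.exp (∑ v ∈ B.pb (zX X), 1 / (B.N v : ℝ)) ≤ Real.exp (3 * Real.log l + C₂) :=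
          Real.exp_le_exp.2 hHz
      _ = Real.exp C₂ * l ^ 3 := by
          rw [Real.exp_add, mul_comm]
          congr 1
          rw [← Real.exp_log (show 0 < l ^ 3 by positivity), Real.log_pow]
          norm_num
  set D := K * X * Real.exp (B.β / 2 * l - l) * l ^ 8 with hD
  have hD0 : 0 ≤ D := by positivity
  calc _ ≤ _ := d7d_union B.toBase X (zX X) (2 * l)
    _ ≤ ∑ q ∈ ((B.pb (zX X)).powerset ×ˢ (Finset.univ : Finset (ZMod 2))).filter
        (fun q => (q.1.card : ℝ) ≤ 2 * l ∧ (q.1.Nonempty ∨ q.2 ≠ 0)),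
        D * (1 / (B.nS q.1 : ℝ)) := by
        refine Finset.sum_le_sum fun q hq => ?_
        rw [Finset.mem_filter, Finset.mem_product, Finset.mem_powerset] at hq
        exact d7d_one B hC₁ h₁ h₂ X hX1 l hl hl2 hL hb1 q.1 q.2 hq.1.1 hq.2.1 hq.2.2
    _ ≤ ∑ q ∈ (B.pb (zX X)).powerset ×ˢ (Finset.univ : Finset (ZMod 2)),
        D * (1 / (B.nS q.1 : ℝ)) := by
        refine Finset.sum_le_sum_of_subset_of_nonneg (Finset.filter_subset _ _) fun q _ _ => ?_
        have : (0 : ℝ) < B.nS q.1 := by exact_mod_cast B.nS_pos q.1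
        positivity
    _ = 2 * D * ∑ A ∈ (B.pb (zX X)).powerset, 1 / (B.nS A : ℝ) := by
        rw [Finset.sum_product, Finset.mul_sum]
        refine Finset.sum_congr rfl fun A _ => ?_
        show ∑ _y : ZMod 2, D * (1 / (B.nS A : ℝ)) = 2 * D * (1 / (B.nS A : ℝ))
        rw [Finset.sum_const, Finset.card_univ, ZMod.card, nsmul_eq_mul]
        push_cast
        ring
    _ ≤ 2 * D * (Real.exp C₂ * l ^ 3) := by gcongr
    _ = X * Real.exp (B.β / 2 * l - l) * (2 * K * Real.exp C₂ * l ^ 11) := by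
        rw [hD]
        ring
    _ ≤ X * Real.exp (B.β / 2 * l - l) * Real.exp (B.β / 4 * l) := by gcongr
    _ = X * (Real.log X) ^ (B.β - 1 - B.β / 4) := by
        rw [hL, ← Real.exp_mul, mul_assoc, ← Real.exp_add]
        congr 2
        ring

end TRQ
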