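import Pool.Agent.TRQ.D3
import Pool.Agent.TRQ.D7d

/-! [DNA-D8b] the exceptional sets are few -/

set_option autoImplicit false

open Finset Filter Topology
open scoped Classical Nat

namespace TRQ

variable {P : Type}

/-- the exceptional sets -/
noncomputable def exc (B : Sys P) (X : ℝ) : Finset (Finset P) :=
  (B.sb X).filter fun S => 2 * lX X < S.card ∨
    ((S.filter fun v => zX X < (B.N v : ℝ)).card : ℝ) ≤ B.β / 2 * lX X ∨
    B.β / 4 * lX X < ((S.filter fun v => (B.N v : ℝ) ≤ zX X).card : ℝ) ∨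
    ∃ A ⊆ S.filter (fun v => (B.N v : ℝ) ≤ zX X), ∃ ε : ZMod 2,
      (A.Nonempty ∨ ε ≠ 0) ∧ ∀ v ∈ S, zX X < (B.N v : ℝ) → B.xi A ε v = 1

/-- `(log X)^(-c)` is small -/
theorem d8b_small {c : ℝ} (hc : 0 < c) {η : ℝ} (hη : 0 < η) :
    ∀ᶠ X : ℝ in atTop, (Real.log X) ^ (-c) ≤ η :=
  ((tendsto_rpow_neg_atTop hc).comp Real.tendsto_log_atTop).eventually_le_const hη

/-- [DNA-D8b] PROOF. `card_many`, `card_few_large`, `card_many_small`, `card_dep`, `card_sb_ge`. -/
theorem exc_small (B : Sys P) {η : ℝ} (hη : 0 < η) : ∃ X₀ : ℝ, ∀ X : ℝ, X₀ ≤ X →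
    ((exc B X).card : ℝ) ≤ η * (B.sb X).card := by
  obtain ⟨c1, X1, h1, H1⟩ := card_many B.toSys0
  obtain ⟨c2, X2, h2, H2⟩ := card_few_large B.toSys0
  obtain ⟨c3, X3, h3, H3⟩ := card_many_small B.toSys0
  obtain ⟨c4, X4, h4, H4⟩ := card_dep B
  obtain ⟨c0, X0, h0, H0⟩ := card_sb_ge B.toSys0
  have hη' : 0 < c0 * η / 4 := by positivity
  have key : ∀ᶠ X : ℝ in atTop, ((exc B X).card : ℝ) ≤ η * (B.sb X).card := by
    filter_upwards [d8b_small h1 hη', d8b_small h2 hη', d8b_small h3 hη', d8b_small h4 hη',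
      eventually_ge_atTop X0, eventually_ge_atTop X1, eventually_ge_atTop X2, eventually_ge_atTop X3,
      eventually_ge_atTop X4, eventually_gt_atTop (Real.exp 1)] with X e1 e2 e3 e4 g0 g1 g2 g3 g4 gX
    have hXpos : 0 < X := (Real.exp_pos 1).trans gX
    have hlog : 1 < Real.log X := by
      rw [Real.lt_log_iff_exp_lt hXpos]
      exact gX
    have hlog0 : 0 < Real.log X := by linarith
    have hT : 0 ≤ X * (Real.log X) ^ (B.β - 1) :=
      mul_nonneg hXpos.le (Real.rpow_nonneg hlog0.le _)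
    have hone : ∀ {c n : ℝ}, n ≤ X * (Real.log X) ^ (B.β - 1 - c) → (Real.log X) ^ (-c) ≤ c0 * η / 4 →
        n ≤ c0 * η / 4 * (X * (Real.log X) ^ (B.β - 1)) := by
      intro c n hn hc
      refine hn.trans ?_
      rw [sub_eq_add_neg (B.β - 1) c, Real.rpow_add hlog0]
      calc X * ((Real.log X) ^ (B.β - 1) * (Real.log X) ^ (-c)) =
          (Real.log X) ^ (-c) * (X * (Real.log X) ^ (B.β - 1)) := by ring
        _ ≤ _ := mul_le_mul_of_nonneg_right hc hT
    have hsub : exc B X ⊆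
        (((B.sb X).filter fun S => 2 * lX X < S.card) ∪
          ((B.sb X).filter fun S => ((S.filter fun v => zX X < (B.N v : ℝ)).card : ℝ) ≤ B.β / 2 * lX X)) ∪
        (((B.sb X).filter fun S => B.β / 4 * lX X < ((S.filter fun v => (B.N v : ℝ) ≤ zX X).card : ℝ)) ∪
          ((B.sb X).filter fun S => (S.card : ℝ) ≤ 2 * lX X ∧
            ∃ A ⊆ S.filter (fun v => (B.N v : ℝ) ≤ zX X), ∃ ε : ZMod 2,
              (A.Nonempty ∨ ε ≠ 0) ∧ ∀ v ∈ S, zX X < (B.N v : ℝ) → B.xi A ε v = 1)) := by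
      intro S hS
      unfold exc at hS
      rw [Finset.mem_filter] at hS
      obtain ⟨hS0, hS⟩ := hS
      simp only [Finset.mem_union, Finset.mem_filter]
      rcases hS with hS | hS | hS | hS
      · exact Or.inl (Or.inl ⟨hS0, hS⟩)
      · exact Or.inl (Or.inr ⟨hS0, hS⟩)
      · exact Or.inr (Or.inl ⟨hS0, hS⟩)
      · by_cases hc : (S.card : ℝ) ≤ 2 * lX X
        · exact Or.inr (Or.inr ⟨hS0, hc, hS⟩)
        · exact Or.inl (Or.inl ⟨hS0, not_le.1 hc⟩)
    have hcard := (Finset.card_le_card hsub).trans ((Finset.card_union_le _ _).trans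
      (Nat.add_le_add (Finset.card_union_le _ _) (Finset.card_union_le _ _)))
    have hcard' : ((exc B X).card : ℝ) ≤ (((B.sb X).filter fun S => 2 * lX X < S.card).card +
        ((B.sb X).filter fun S => ((S.filter fun v => zX X < (B.N v : ℝ)).card : ℝ) ≤ B.β / 2 * lX X).card) +
        (((B.sb X).filter fun S => B.β / 4 * lX X < ((S.filter fun v => (B.N v : ℝ) ≤ zX X).card : ℝ)).card +
          ((B.sb X).filter fun S => (S.card : ℝ) ≤ 2 * lX X ∧
            ∃ A ⊆ S.filter (fun v => (B.N v : ℝ) ≤ zX X), ∃ ε : ZMod 2,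
              (A.Nonempty ∨ ε ≠ 0) ∧ ∀ v ∈ S, zX X < (B.N v : ℝ) → B.xi A ε v = 1).card) := by
      exact_mod_cast hcard
    have b1 := hone (H1 X g1) e1
    have b2 := hone (H2 X g2) e2
    have b3 := hone (H3 X g3) e3
    have b4 := hone (H4 X g4) e4
    have b0 := mul_le_mul_of_nonneg_left (H0 X g0) hη.le
    calc ((exc B X).card : ℝ) ≤ 4 * (c0 * η / 4 * (X * (Real.log X) ^ (B.β - 1))) := by linarith
      _ = η * (c0 * X * (Real.log X) ^ (B.β - 1)) := by ring
      _ ≤ _ := b0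
  exact (eventually_atTop.1 key)

end TRQ
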