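import Pool.Agent.TRQ.FNa

/-! [DNA-FN] the density theorem for all good curves over `M = L(√-7)` ordered by the product of the norms of the bad primes -/

set_option autoImplicit false

open NumberField IsDedekindDomain Filter Topology
open scoped Classical

namespace XTB

open TRB

section
variable {K : Type} [Field K] [NumberField K]

/-- the product of the norms of the bad prime ideals of `E` which do not contain `7` -/
noncomputable def badNorm (E : WeierstrassCurve K) : ℕ :=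
  ∏ᶠ P : {P : HeightOneSpectrum (𝓞 K) // (7 : 𝓞 K) ∉ P.asIdeal ∧ ¬ XTS.GoodReduction E P}, Ideal.absNorm P.1.asIdeal

/-- The isomorphism classes over `K` of the good curves `E` over `K` which satisfy `Q`, such that the product of the norms of the bad prime ideals of `E` which do not contain `7` is at most `X`. -/
def normFamily (K : Type) [Field K] [NumberField K] (X : ℕ) (Q : WeierstrassCurve K → Prop) :
    Set (MulAction.orbitRel.Quotient (WeierstrassCurve.VariableChange K) (WeierstrassCurve K)) :=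
  {c | ∃ E : WeierstrassCurve K, Quotient.mk _ E = c ∧ GoodCurve E ∧ badNorm E ≤ X ∧ Q E}

theorem badNorm_eq {E : WeierstrassCurve K} {S : Finset (HeightOneSpectrum (𝓞 K))}
    (hS : ∀ P, P ∈ S ↔ (7 : 𝓞 K) ∉ P.asIdeal ∧ ¬ XTS.GoodReduction E P) :
    badNorm E = ∏ P ∈ S, Ideal.absNorm P.asIdeal := by
  unfold badNorm
  rw [finprod_subtype_eq_finprod_cond (f := fun P : HeightOneSpectrum (𝓞 K) => Ideal.absNorm P.asIdeal)
    (fun P => (7 : 𝓞 K) ∉ P.asIdeal ∧ ¬ XTS.GoodReduction E P), ← finprod_mem_coe_finset]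
  refine finprod_congr fun P => ?_
  have h1 : ((7 : 𝓞 K) ∉ P.asIdeal ∧ ¬ XTS.GoodReduction E P) = (P ∈ (S : Set (HeightOneSpectrum (𝓞 K)))) := by
    rw [Finset.mem_coe]
    exact propext (hS P).symm
  rw [h1]

end

section
variable {L : Type} [Field L] [NumberField L] (hL : IsTotallyReal L)
  (h7 : (Ideal.span {(7 : 𝓞 L)}).IsPrime) {M : Type} [Field M] [NumberField M] [Algebra L M]
  (hM : Module.finrank L M = 2) (hodd : Odd (classNumber M)) (hr : ∃ r : M, r ^ 2 = -7)

/-- the inclusion -/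
def gpEmb [IsTotallyReal L] (D : TR.Dat L M) : TRQ.GP D ↪ HeightOneSpectrum (𝓞 M) := ⟨Subtype.val, Subtype.val_injective⟩

include hL h7 hM hodd hr in
/-- the classes of curves correspond to the sets of primes -/
theorem fn_family (D : TR.Dat L M) {p : HeightOneSpectrum (𝓞 M) → 𝓞 M}
    (hp : ∀ P, TRG.Good P → D.rr ∉ P.asIdeal → TRG.GenP P (p P)) (X : ℕ) (Q : WeierstrassCurve M → Prop)
    (T : Finset (TRQ.GP D) → Prop)
    (hT : ∀ (S : Finset (TRQ.GP D)) (E : WeierstrassCurve M), GoodCurve E →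
      (∀ P, P ∈ S.map (gpEmb D) ↔ (7 : 𝓞 M) ∉ P.asIdeal ∧ ¬ XTS.GoodReduction E P) → (Q E ↔ T S)) :
    (normFamily M X Q).Finite ∧ (normFamily M X Q).ncard =
      (((TRQ.baseM D hodd p hp).sb (X : ℝ)).filter fun S => T S).card := by
  obtain ⟨B, hB⟩ : ∃ B, B = TRQ.baseM D hodd p hp := ⟨_, rfl⟩
  rw [← hB]
  have hnS : ∀ S : Finset (TRQ.GP D), B.nS S = ∏ P ∈ S.map (gpEmb D), Ideal.absNorm P.asIdeal := by
    intro S
    rw [Finset.prod_map, hB]
    rfl
  have hsb : ∀ S : Finset (TRQ.GP D), S ∈ B.sb (X : ℝ) ↔ B.nS S ≤ X := by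
    intro S
    rw [B.mem_sb]
    exact Nat.cast_le
  have hex : ∀ S : Finset (TRQ.GP D), ∃ E : WeierstrassCurve M, GoodCurve E ∧
      ∀ P, P ∈ S.map (gpEmb D) ↔ (7 : 𝓞 M) ∉ P.asIdeal ∧ ¬ XTS.GoodReduction E P := by
    intro S
    refine TRN.exists_curve hL h7 hM hr hodd fun P hP => ?_
    obtain ⟨v, -, rfl⟩ := Finset.mem_map.1 hP
    exact ⟨v.2.1.two, fun h => v.2.2 ((TTS.n1_rr_iff D v.1).1 h), n11_goodPrime v.2.1⟩
  choose E hE hbad using hex
  obtain ⟨cl, hcl⟩ : ∃ cl : Finset (TRQ.GP D) →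
      MulAction.orbitRel.Quotient (WeierstrassCurve.VariableChange M) (WeierstrassCurve M),
      ∀ S, cl S = Quotient.mk _ (E S) := ⟨fun S => Quotient.mk _ (E S), fun _ => rfl⟩
  have hset : normFamily M X Q = ↑(((B.sb (X : ℝ)).filter fun S => T S).image cl) := by
    ext c
    rw [Finset.mem_coe, Finset.mem_image]
    constructor
    · rintro ⟨E', hc, hE', hX, hQE⟩
      obtain ⟨-, ⟨S, q, hS, -⟩, -⟩ := mod_two_sqrt hL h7 hM hr hodd hE'
      have hg : ∀ P ∈ S, TRG.Good P ∧ D.rr ∉ P.asIdeal := by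
        intro P hP
        have h1 := (hS P).1 hP
        exact ⟨TRN.n10_good D (fun h2 => h1.2 (hE'.two P h2)) h1.1
          ((hE'.good P h1.1).resolve_left h1.2), TRN.n10_rr D h1.1⟩
      obtain ⟨S', hS'⟩ : ∃ S' : Finset (TRQ.GP D), S'.map (gpEmb D) = S := by
        refine ⟨S.attach.map ⟨fun P => ⟨P.1, hg P.1 P.2⟩, ?_⟩, ?_⟩
        · intro P P' h
          exact Subtype.ext (congrArg (fun v : TRQ.GP D => v.1) h)
        · rw [Finset.map_map]
          ext P
          rw [Finset.mem_map]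
          constructor
          · rintro ⟨v, -, rfl⟩
            exact v.2
          · intro hP
            exact ⟨⟨P, hP⟩, Finset.mem_attach _ _, rfl⟩
      have hS2 : ∀ P, P ∈ S'.map (gpEmb D) ↔ (7 : 𝓞 M) ∉ P.asIdeal ∧ ¬ XTS.GoodReduction E' P := by
        rw [hS']
        exact hS
      refine ⟨S', ?_, ?_⟩
      · rw [Finset.mem_filter, hsb, hnS, ← badNorm_eq hS2]
        exact ⟨hX, (hT S' E' hE' hS2).1 hQE⟩
      · rw [hcl, ← hc]
        obtain ⟨C, hC⟩ := TRN.iso_of_bad hL h7 hM hr hodd hE' (hE S') (fun P h7P => by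
          have h1 := hS2 P
          have h2 := hbad S' P
          constructor
          · intro h
            by_contra hn
            exact (h1.1 (h2.2 ⟨h7P, hn⟩)).2 h
          · intro h
            by_contra hn
            exact (h2.1 (h1.2 ⟨h7P, hn⟩)).2 h)
        apply Quotient.sound
        change E S' ∈ MulAction.orbit _ E'
        exact ⟨C, hC.symm⟩
    · rintro ⟨S, hS, rfl⟩
      rw [Finset.mem_filter, hsb] at hS
      refine ⟨E S, (hcl S).symm, hE S, ?_, (hT S (E S) (hE S) (hbad S)).2 hS.2⟩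
      rw [badNorm_eq (hbad S), ← hnS]
      exact hS.1
  have hinj : Set.InjOn cl ↑((B.sb (X : ℝ)).filter fun S => T S) := by
    intro S _ S' _ h
    rw [hcl, hcl] at h
    have h1 : E S ∈ MulAction.orbit (WeierstrassCurve.VariableChange M) (E S') := Quotient.exact h
    obtain ⟨C, hC⟩ := h1
    have hC' : C • E S' = E S := hC
    apply Finset.map_injective (gpEmb D)
    ext P
    rw [hbad S, hbad S', ← hC', TRN.good_smul]
  rw [hset]
  exact ⟨Finset.finite_toSet _, by
    rw [Set.ncard_coe_finset, Finset.card_image_of_injOn hinj]⟩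

end

/-- **[DNA]** the density theorem -/
theorem density_norm {L : Type} [Field L] [NumberField L] (hL : IsTotallyReal L)
    (h7 : (Ideal.span {(7 : 𝓞 L)}).IsPrime) {M : Type} [Field M] [NumberField M] [Algebra L M]
    (hM : Module.finrank L M = 2) (hr : ∃ r : M, r ^ 2 = -7) (hodd : Odd (classNumber M)) :
    (∀ X : ℕ, (normFamily M X fun _ => True).Finite) ∧
    Tendsto (fun X : ℕ => (normFamily M X fun _ => True).ncard) atTop atTop ∧
    Tendsto (fun X : ℕ => ((normFamily M X FiniteSha).ncard : ℝ) / ((normFamily M X fun _ => True).ncard : ℝ))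
      atTop (𝓝 (∏' k : ℕ, (1 - 1 / 2 ^ (2 * k + 1)))) := by
  obtain ⟨D0⟩ := Real7.dat h7 hM hr
  obtain ⟨D, hD⟩ : ∃ D : TR.Dat L M, D = D0.toTR hodd := ⟨_, rfl⟩
  have hex : ∀ P : HeightOneSpectrum (𝓞 M), TRG.Good P → D.rr ∉ P.asIdeal →
      ∃ q : 𝓞 M, TRG.GenP P q := fun P h1 h2 => TRG.exists_genP D h1 h2
  choose! p hp using hex
  obtain ⟨B, hB⟩ := TRQ.exists_sys D hodd p hp
  have hTrue := fun X => fn_family hL h7 hM hodd hr D hp X (fun _ => True) (fun _ => True) (fun _ _ _ _ => Iff.rfl)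
  have hFin := fun X => fn_family hL h7 hM hodd hr D hp X FiniteSha
    (fun S => (TRQ.baseM D hodd p hp).Odd S) (by
      intro S E hE hS
      obtain ⟨-, -, h3⟩ := mod_two_sqrt hL h7 hM hr hodd hE
      have hg : ∀ P ∈ S.map (gpEmb D), TRG.Good P ∧ D.rr ∉ P.asIdeal := by
        intro P hP
        obtain ⟨v, -, rfl⟩ := Finset.mem_map.1 hP
        exact v.2
      have hgen : ∀ P ∈ S.map (gpEmb D), TRG.GenP P (p P) := fun P hP => hp P (hg P hP).1 (hg P hP).2
      obtain ⟨r, hrr⟩ : ∃ r : 𝓞 M, r ^ 2 = -7 := ⟨D.rr, D.rr_sq⟩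
      obtain ⟨-, h4⟩ := h3 _ p r hS (fun P hP => ⟨(hgen P hP).gen, (hgen P hP).sq⟩) hrr
      rw [h4, laplacian_det D (fun P hP => (hg P hP).1) (fun P hP => (hg P hP).2) hgen hgen hrr,
        TRQ.f_map]
      exact Iff.rfl)
  have hc1 : ∀ X : ℕ, (normFamily M X fun _ => True).ncard = (B.sb (X : ℝ)).card := by
    intro X
    rw [(hTrue X).2, hB]
    congr 1
    ext S
    simp only [Finset.mem_filter, and_true]
  have hc2 : ∀ X : ℕ, (normFamily M X FiniteSha).ncard =
      ((B.sb (X : ℝ)).filter fun S => B.Odd S).card := by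
    intro X
    rw [(hFin X).2, hB]
  refine ⟨fun X => (hTrue X).1, ?_, ?_⟩
  · have h1 := TRQ.card_sb_tendsto B.toSys0
    have h2 : (fun X : ℕ => (normFamily M X fun _ => True).ncard) = fun X : ℕ => (B.sb (X : ℝ)).card := funext hc1
    rw [h2]
    exact h1
  · have h1 := (TRQ.main_abs B).comp tendsto_natCast_atTop_atTop (α := ℕ)
    have h2 : (fun X : ℕ => ((normFamily M X FiniteSha).ncard : ℝ) / ((normFamily M X fun _ => True).ncard : ℝ)) =
        (fun X : ℝ => (((B.sb X).filter fun S => B.Odd S).card : ℝ) / ((B.sb X).card : ℝ)) ∘ (fun X : ℕ => (X : ℝ)) := by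
      funext X
      rw [hc1, hc2]
      rfl
    rw [h2]
    exact h1

end XTB
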