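import Pool.Agent.TRQ.SY
import Pool.Agent.TRQ.D8
import Pool.Agent.TRN.N11

/-! [DNA-FN] the density theorem, preparations -/

set_option autoImplicit false

open NumberField IsDedekindDomain Filter Topology
open scoped Classical

namespace TRQ

section
variable {K : Type*} [CommRing K]

/-- reindexing -/
theorem f_map {ι κ : Type*} (φ : ι ↪ κ) (a : κ → κ → K) (b : κ → K) (S : Finset ι) :
    Pool.Agent.TRG.f a b (S.map φ) = Pool.Agent.TRG.f (fun i j => a (φ i) (φ j)) (fun i => b (φ i)) S := by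
  unfold Pool.Agent.TRG.f
  obtain ⟨e, he⟩ : ∃ e : S ≃ (S.map φ : Finset κ), ∀ i : S, e i = ⟨φ i, Finset.mem_map_of_mem φ i.2⟩ := by
    refine ⟨Equiv.ofBijective (fun i : S => (⟨φ i, Finset.mem_map_of_mem φ i.2⟩ : (S.map φ : Finset κ)))
      ⟨?_, ?_⟩, fun i => rfl⟩
    · intro i j h
      exact Subtype.ext (φ.injective (congrArg Subtype.val h))
    · rintro ⟨x, hx⟩
      obtain ⟨y, hy, rfl⟩ := Finset.mem_map.1 hx
      exact ⟨⟨y, hy⟩, rfl⟩
  rw [← Matrix.det_submatrix_equiv_self e]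
  congr 1
  ext i j
  simp only [Matrix.submatrix_apply, Pool.Agent.TRG.lap, he]
  by_cases hij : i = j
  · subst hij
    rw [if_pos rfl, if_pos rfl]
    congr 1
    rw [← Finset.map_erase, Finset.sum_map]
  · rw [if_neg hij, if_neg]
    intro h
    exact hij (Subtype.ext (φ.injective (congrArg Subtype.val h)))

end

/-- the number of the sets tends to infinity -/
theorem card_sb_tendsto {P : Type} (B : Sys0 P) : Tendsto (fun X : ℕ => (B.sb (X : ℝ)).card) atTop atTop := by
  obtain ⟨c, X₀, hc, h⟩ := card_sb_ge B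
  have h1 : Tendsto (fun X : ℕ => c / 2 * Real.sqrt X) atTop atTop :=
    (Real.tendsto_sqrt_atTop.comp tendsto_natCast_atTop_atTop).const_mul_atTop (by positivity)
  rw [← tendsto_natCast_atTop_iff (R := ℝ)]
  refine tendsto_atTop_mono' atTop ?_ h1
  have h2 : ∀ᶠ X : ℕ in atTop, max X₀ 3 ≤ (X : ℝ) := by
    exact tendsto_natCast_atTop_atTop.eventually_ge_atTop (max X₀ 3)
  filter_upwards [h2] with X hX
  have hX3 : (3 : ℝ) ≤ X := le_trans (le_max_right _ _) hX
  refine le_trans ?_ (h X (le_trans (le_max_left _ _) hX))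
  have hlog1 : 1 ≤ Real.log X := by
    rw [Real.le_log_iff_exp_le (by linarith)]
    linarith [Real.exp_one_lt_d9]
  have hlog2 : Real.log X ≤ 2 * Real.sqrt X := by
    have h3 : Real.log (Real.sqrt X) ≤ Real.sqrt X := by
      have := Real.log_le_sub_one_of_pos (Real.sqrt_pos.2 (by linarith : (0 : ℝ) < X))
      linarith
    have h4 : Real.log X = 2 * Real.log (Real.sqrt X) := by
      rw [Real.log_sqrt (by linarith)]
      ring
    linarith
  have h5 : (Real.log X) ^ (-1 : ℝ) ≤ (Real.log X) ^ (B.β - 1) :=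
    Real.rpow_le_rpow_of_exponent_le hlog1 (by linarith [B.hβ])
  have h6 : Real.sqrt X * Real.sqrt X = X := Real.mul_self_sqrt (by linarith)
  have h7 : Real.sqrt X / 2 ≤ X * (Real.log X) ^ (-1 : ℝ) := by
    rw [Real.rpow_neg_one, ← div_eq_mul_inv, div_le_div_iff₀ (by norm_num) (by linarith)]
    have h8 : 0 ≤ Real.sqrt X := Real.sqrt_nonneg _
    nlinarith
  calc c / 2 * Real.sqrt X = c * (Real.sqrt X / 2) := by ring
    _ ≤ c * (X * (Real.log X) ^ (-1 : ℝ)) := by gcongr
    _ ≤ c * (X * (Real.log X) ^ (B.β - 1)) := by gcongr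
    _ = c * X * (Real.log X) ^ (B.β - 1) := by ring

end TRQ
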