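import Pool.Agent.TRN.N6

/-! [DNA-H2] bilinear sums of residue symbols, unbalanced -/

set_option autoImplicit false

open NumberField Ideal IsDedekindDomain
open scoped Classical

namespace TRQ

section
variable (K : Type) [Field K] [NumberField K]

variable {K} in
/-- the exceptional primes -/
theorem h2_split {T W : Finset (HeightOneSpectrum (𝓞 K))} (B : Finset (HeightOneSpectrum (𝓞 K)))
    {χ : HeightOneSpectrum (𝓞 K) → (Ideal (𝓞 K) →*₀ ℤ)} (hχ : ∀ Q ∈ T, TRG.LamP Q (χ Q))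
    {α β : HeightOneSpectrum (𝓞 K) → ℝ} (hα : ∀ P, |α P| ≤ 1) (hβ : ∀ P, |β P| ≤ 1) :
    |∑ Q ∈ T, β Q * ∑ P ∈ W, α P * (χ Q P.asIdeal : ℝ)| ≤
      B.card * W.card + ∑ Q ∈ T.filter (· ∉ B), |∑ P ∈ W, α P * (χ Q P.asIdeal : ℝ)| := by
  have h2 : |∑ Q ∈ T, β Q * ∑ P ∈ W, α P * (χ Q P.asIdeal : ℝ)| ≤
      ∑ Q ∈ T, |∑ P ∈ W, α P * (χ Q P.asIdeal : ℝ)| := by
    refine (Finset.abs_sum_le_sum_abs _ _).trans (Finset.sum_le_sum fun Q _ => ?_)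
    rw [abs_mul]
    exact mul_le_of_le_one_left (abs_nonneg _) (hβ Q)
  have hSb : ∀ Q ∈ T, |∑ P ∈ W, α P * (χ Q P.asIdeal : ℝ)| ≤ W.card := by
    intro Q hQ
    refine (Finset.abs_sum_le_sum_abs _ _).trans ?_
    rw [← nsmul_one, ← Finset.sum_const]
    refine Finset.sum_le_sum fun P _ => ?_
    rw [abs_mul]
    have h3 : |(χ Q P.asIdeal : ℝ)| ≤ 1 := by
      rcases (hχ Q hQ).val P.asIdeal with h | h | h <;> rw [h] <;> simp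
    exact mul_le_one₀ (hα P) (abs_nonneg _) h3
  refine h2.trans ?_
  rw [← Finset.sum_filter_add_sum_filter_not T (· ∈ B)]
  refine add_le_add ?_ le_rfl
  refine (Finset.sum_le_sum fun Q hQ => hSb Q (Finset.mem_filter.1 hQ).1).trans ?_
  rw [Finset.sum_const, nsmul_eq_mul]
  refine mul_le_mul_of_nonneg_right ?_ (Nat.cast_nonneg _)
  exact_mod_cast Finset.card_le_card fun Q hQ => (Finset.mem_filter.1 hQ).2

/-- the moments, by the large sieve -/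
theorem h2_moment : ∃ (B : Finset (HeightOneSpectrum (𝓞 K))) (C : ℝ), 0 < C ∧ ∀ k N F y : ℕ, 1 ≤ k → 1 ≤ F →
    F ^ 2 ≤ y → N ^ k = y ^ Module.finrank ℚ K →
    ∀ (T W : Finset (HeightOneSpectrum (𝓞 K))) (χ : HeightOneSpectrum (𝓞 K) → (Ideal (𝓞 K) →*₀ ℤ)),
      (∀ Q ∈ T, Q ∉ B ∧ (2 : 𝓞 K) ∉ Q.asIdeal ∧ TRG.LamP Q (χ Q) ∧ absNorm Q.asIdeal ≤ F) →
      (∀ P ∈ W, absNorm P.asIdeal ≤ N) → ∀ α : HeightOneSpectrum (𝓞 K) → ℝ, (∀ P, |α P| ≤ 1) →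
      (∑ Q ∈ T, |∑ P ∈ W, α P * (χ Q P.asIdeal : ℝ)|) ^ (2 * k) ≤ (T.card : ℝ) ^ (2 * k - 1) *
        (C * ((y : ℝ) ^ Module.finrank ℚ K + (y : ℝ) ^ (Module.finrank ℚ K - 1) * F ^ 2 * T.card) *
          ((k : ℝ) ^ k * (W.card : ℝ) ^ k)) := by
  obtain ⟨B, C1, hC1, hls⟩ := TRN.large_sieve_dual K
  refine ⟨B, C1, hC1, ?_⟩
  intro k N F y hk hF hFy hNy T W χ hT hW α hα
  have h7 := hls F y hF hFy T χ hT (TRN.bilB k W α)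
  rw [← hNy] at h7
  have h9 : ∀ Q, |∑ P ∈ W, α P * (χ Q P.asIdeal : ℝ)| ^ (2 * k) =
      (∑ A ∈ TRN.idb K (N ^ k), TRN.bilB k W α A * (χ Q A : ℝ)) ^ 2 := by
    intro Q
    rw [← TRN.bil_pow k α hW (χ Q), ← pow_mul, mul_comm k 2]
    exact (even_two_mul k).pow_abs _
  have h6 : ∑ Q ∈ T, |∑ P ∈ W, α P * (χ Q P.asIdeal : ℝ)| ^ (2 * k) ≤
      C1 * ((y : ℝ) ^ Module.finrank ℚ K + (y : ℝ) ^ (Module.finrank ℚ K - 1) * F ^ 2 * T.card) *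
          ((k : ℝ) ^ k * (W.card : ℝ) ^ k) := by
    rw [Finset.sum_congr rfl fun Q _ => h9 Q]
    refine h7.trans ?_
    exact mul_le_mul_of_nonneg_left (TRN.bil_sq k hW hα) (by positivity)
  have h10 := pow_sum_le_card_mul_sum_pow (s := T) (f := fun Q => |∑ P ∈ W, α P * (χ Q P.asIdeal : ℝ)|)
    (fun Q _ => abs_nonneg _) (2 * k - 1)
  have h11 : 2 * k - 1 + 1 = 2 * k := by omega
  rw [h11] at h10
  exact h10.trans (mul_le_mul_of_nonneg_left h6 (by positivity))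

/-- [DNA-H2] PROOF. `n = [K : ℚ]`. `U` = primes of norm `≤ Y₁`, `V` = primes of norm `≤ Y₂`, `Y₁ ≤ Y₂`, `s P Q` a symmetric symbol which is equal to `χ Q P` and to `χ P Q`. Remove the finitely many primes in `B`
(trivial bound `C Y₂ ≤ C Y₁^(1-δ) Y₂`).
(1) `Y₁^(3n) ≤ Y₂`: `large_sieve_dual` with `F = ⌊Y₁⌋`, `T = U`, `A = Q ∈ V` (`y = ⌈Y₂^(1/n)⌉`, `F² ≤ y`): `∑_{P ∈ U} (∑_{Q ∈ V} β_Q X_P(Q))² ≤ C (y^n + y^(n-1) Y₁² #U) #V ≤ C Y₂²` (`y^n ≤ 2^n Y₂`), so with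
Cauchy-Schwarz `|∑∑| ≤ (#U)^(1/2) (C Y₂²)^(1/2) ≤ C Y₁^(1/2) Y₂`.
(2) `Y₂ < Y₁^(3n)`: as in `TRN.bilinear` (`TRN/N6.lean`) with `k = 9 n²`: `F = ⌊Y₂⌋`, `y = ⌈Y₁⌉^(9n)`, `T = V`: `∑_{Q ∈ V} S_Q^(2k) ≤ C (y^n + y^(n-1) Y₂² #V) k^k (C Y₁)^k ≤ C' Y₁^(2k)`, so with Hölder
`∑_Q |S_Q| ≤ (#V)^(1 - 1/(2k)) (C' Y₁^(2k))^(1/(2k)) ≤ C Y₁ Y₂ Y₂^(-1/(2k)) ≤ C Y₁^(1 - 1/(2k)) Y₂`. -/
theorem bilinear2 : ∃ C δ : ℝ, 0 < C ∧ 0 < δ ∧ δ ≤ 1 ∧ ∀ Y₁ Y₂ : ℝ, 1 ≤ Y₁ → Y₁ ≤ Y₂ →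
    ∀ (U V : Finset (HeightOneSpectrum (𝓞 K))) (χ : HeightOneSpectrum (𝓞 K) → (Ideal (𝓞 K) →*₀ ℤ))
      (s : HeightOneSpectrum (𝓞 K) → HeightOneSpectrum (𝓞 K) → ℝ),
      (∀ P ∈ U, (absNorm P.asIdeal : ℝ) ≤ Y₁) → (∀ Q ∈ V, (absNorm Q.asIdeal : ℝ) ≤ Y₂) →
      (∀ P ∈ U ∪ V, (2 : 𝓞 K) ∉ P.asIdeal ∧ TRG.LamP P (χ P)) →
      (∀ P ∈ U, ∀ Q ∈ V, s P Q = (χ Q P.asIdeal : ℝ) ∧ s P Q = (χ P Q.asIdeal : ℝ)) →
      ∀ a b : HeightOneSpectrum (𝓞 K) → ℝ, (∀ P, |a P| ≤ 1) → (∀ Q, |b Q| ≤ 1) →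
      |∑ P ∈ U, ∑ Q ∈ V, a P * b Q * s P Q| ≤ C * Y₁ ^ (1 - δ) * Y₂ := by
  obtain ⟨B, C1, hC1, hmom⟩ := h2_moment K
  obtain ⟨C0, hC0, hcard⟩ := TRN.card_prb_le K
  obtain ⟨n, hn⟩ : ∃ n, n = Module.finrank ℚ K := ⟨_, rfl⟩
  have hn0 : 0 < n := by
    rw [hn]
    exact Module.finrank_pos
  rw [← hn] at hmom
  obtain ⟨k, hk⟩ : ∃ k, k = 9 * n * n := ⟨_, rfl⟩
  have hk0 : 1 ≤ k := by
    rw [hk]
    exact Nat.mul_pos (by omega) hn0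
  obtain ⟨δ, hδ⟩ : ∃ δ : ℝ, δ = 1 / (2 * k) := ⟨_, rfl⟩
  have hkR : (1 : ℝ) ≤ k := by exact_mod_cast hk0
  have hδ0 : 0 < δ := by
    rw [hδ]
    positivity
  have hδ2 : δ ≤ 1 / 2 := by
    rw [hδ]
    exact one_div_le_one_div_of_le (by norm_num) (by linarith)
  obtain ⟨D1, hD1⟩ : ∃ D1 : ℝ, D1 = C0 * (C1 * ((1 + C0) * 2 ^ n) * C0) := ⟨_, rfl⟩
  obtain ⟨D2, hD2⟩ : ∃ D2 : ℝ, D2 = C0 ^ (2 * k - 1) * (C1 * ((1 + C0) * 2 ^ k) * ((k : ℝ) ^ k * C0 ^ k)) :=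
    ⟨_, rfl⟩
  have hD10 : 0 < D1 := by
    rw [hD1]
    positivity
  have hD20 : 0 < D2 := by
    rw [hD2]
    positivity
  refine ⟨B.card * C0 + (1 + D1 + D2), δ, by positivity, hδ0, by linarith, ?_⟩
  intro Y₁ Y₂ hY1 hY12 U V χ s hU hV hUV hs a b ha hb
  have hY10 : 0 < Y₁ := by linarith
  have hY20 : 0 < Y₂ := by linarith
  have hY2 : 1 ≤ Y₂ := by linarith
  -- the cardinalities
  have hcd : ∀ (Y : ℝ), 1 ≤ Y → ∀ W : Finset (HeightOneSpectrum (𝓞 K)), (∀ P ∈ W, (absNorm P.asIdeal : ℝ) ≤ Y) →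
      (W.card : ℝ) ≤ C0 * Y := by
    intro Y hY W hW
    have h1 : (W.card : ℝ) ≤ C0 * (⌊Y⌋₊ : ℝ) := by
      refine le_trans ?_ (hcard ⌊Y⌋₊)
      exact_mod_cast Finset.card_le_card fun P hP => (TRN.mem_prb K).2 (Nat.le_floor (hW P hP))
    exact h1.trans (mul_le_mul_of_nonneg_left (Nat.floor_le (by linarith)) hC0.le)
  have hUc := hcd Y₁ hY1 U hU
  have hVc := hcd Y₂ hY2 V hV
  have hG0 : 0 < Y₁ ^ (1 - δ) * Y₂ := by positivity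
  have hY1δ : 1 ≤ Y₁ ^ (1 - δ) := Real.one_le_rpow hY1 (by linarith)
  have hfin : ∀ (X R : ℝ) (j : ℕ), 1 ≤ j → 0 ≤ X → 0 < R → R ≤ D1 + D2 →
      X ^ j ≤ R * (Y₁ ^ (1 - δ) * Y₂) ^ j → X ≤ (1 + D1 + D2) * (Y₁ ^ (1 - δ) * Y₂) := by
    intro X R j hj hX hR hRD h
    refine (pow_le_pow_iff_left₀ hX (by positivity) (by omega : j ≠ 0)).1 (h.trans ?_)
    rw [mul_pow (1 + D1 + D2)]
    refine mul_le_mul_of_nonneg_right ?_ (by positivity)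
    calc R ≤ 1 + D1 + D2 := by linarith
      _ = (1 + D1 + D2) ^ 1 := (pow_one _).symm
      _ ≤ (1 + D1 + D2) ^ j := pow_le_pow_right₀ (by linarith) hj
  rcases le_or_gt (Y₁ ^ (3 * n)) Y₂ with hcase | hcase
  · -- first case
    have h1 : ∑ P ∈ U, ∑ Q ∈ V, a P * b Q * s P Q = ∑ P ∈ U, a P * ∑ Q ∈ V, b Q * (χ P Q.asIdeal : ℝ) := by
      refine Finset.sum_congr rfl fun P hP => ?_
      rw [Finset.mul_sum]
      refine Finset.sum_congr rfl fun Q hQ => ?_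
      rw [(hs P hP Q hQ).2]
      ring
    rw [h1]
    refine (h2_split B (fun P hP => (hUV P (Finset.mem_union_left _ hP)).2) hb ha).trans ?_
    -- the parameters
    obtain ⟨z, hz0, hzn⟩ : ∃ z : ℝ, 0 < z ∧ z ^ n = Y₂ :=
      ⟨Y₂ ^ ((n : ℝ)⁻¹), by positivity, Real.rpow_inv_natCast_pow hY20.le hn0.ne'⟩
    have hz1 : 1 ≤ z := by
      refine (pow_le_pow_iff_left₀ (zero_le_one (α := ℝ)) hz0.le hn0.ne').1 ?_
      rw [one_pow, hzn]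
      exact hY2
    have hY13 : Y₁ ^ 3 ≤ z := by
      refine (pow_le_pow_iff_left₀ (by positivity) hz0.le hn0.ne').1 ?_
      rw [← pow_mul, hzn]
      exact hcase
    obtain ⟨y, hy⟩ : ∃ y, y = ⌈z⌉₊ := ⟨_, rfl⟩
    have hyz : z ≤ y := by
      rw [hy]
      exact Nat.le_ceil z
    have hy2 : (y : ℝ) ≤ 2 * z := by
      have := Nat.ceil_lt_add_one hz0.le
      rw [← hy] at this
      linarith
    have hyn : (y : ℝ) ^ n ≤ 2 ^ n * Y₂ := by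
      rw [← hzn, ← mul_pow]
      exact pow_le_pow_left₀ (Nat.cast_nonneg _) hy2 n
    have hyn2 : Y₂ ≤ (y : ℝ) ^ n := by
      rw [← hzn]
      exact pow_le_pow_left₀ hz0.le hyz n
    have hF1 : 1 ≤ ⌊Y₁⌋₊ := Nat.le_floor (by exact_mod_cast hY1)
    have hFY : (⌊Y₁⌋₊ : ℝ) ≤ Y₁ := Nat.floor_le hY10.le
    have hY12' : Y₁ ^ 2 ≤ Y₁ ^ 3 := pow_le_pow_right₀ hY1 (by norm_num)
    have hF2 : ((⌊Y₁⌋₊ : ℝ)) ^ 2 ≤ Y₁ ^ 2 := pow_le_pow_left₀ (Nat.cast_nonneg _) hFY 2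
    have hFy : ⌊Y₁⌋₊ ^ 2 ≤ y := by
      have : ((⌊Y₁⌋₊ : ℝ)) ^ 2 ≤ y := by linarith
      exact_mod_cast this
    have hm := hmom 1 (y ^ n) ⌊Y₁⌋₊ y le_rfl hF1 hFy (pow_one _) (U.filter (· ∉ B)) V χ
      (fun P hP => ⟨(Finset.mem_filter.1 hP).2, (hUV P (Finset.mem_union_left _ (Finset.mem_filter.1 hP).1)).1,
        (hUV P (Finset.mem_union_left _ (Finset.mem_filter.1 hP).1)).2,
        Nat.le_floor (hU P (Finset.mem_filter.1 hP).1)⟩)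
      (fun Q hQ => by
        have h2 := (hV Q hQ).trans hyn2
        exact_mod_cast h2) b hb
    obtain ⟨c, hc⟩ : ∃ c : ℝ, c = ((U.filter (· ∉ B)).card : ℝ) := ⟨_, rfl⟩
    have hc0 : 0 ≤ c := by
      rw [hc]
      exact Nat.cast_nonneg _
    have hcU : c ≤ C0 * Y₁ := by
      rw [hc]
      refine le_trans ?_ hUc
      exact_mod_cast Finset.card_filter_le _ _
    rw [← hc] at hm
    have hy0 : (0 : ℝ) < y := lt_of_lt_of_le hz0 hyz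
    have h3 : (y : ℝ) ^ n + (y : ℝ) ^ (n - 1) * (⌊Y₁⌋₊ : ℝ) ^ 2 * c ≤ (1 + C0) * 2 ^ n * Y₂ := by
      have h4 : (y : ℝ) ^ (n - 1) * (⌊Y₁⌋₊ : ℝ) ^ 2 * c ≤ (y : ℝ) ^ (n - 1) * Y₁ ^ 2 * (C0 * Y₁) := by
        gcongr
      have h5 : (y : ℝ) ^ (n - 1) * Y₁ ^ 2 * (C0 * Y₁) = C0 * ((y : ℝ) ^ (n - 1) * Y₁ ^ 3) := by ring
      have h6 : (y : ℝ) ^ (n - 1) * Y₁ ^ 3 ≤ (y : ℝ) ^ (n - 1) * y :=
        mul_le_mul_of_nonneg_left (hY13.trans hyz) (by positivity)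
      have h7 : (y : ℝ) ^ (n - 1) * y = (y : ℝ) ^ n := by
        rw [← pow_succ]
        congr 1
        omega
      rw [h7] at h6
      have h8 : C0 * ((y : ℝ) ^ (n - 1) * Y₁ ^ 3) ≤ C0 * (y : ℝ) ^ n := mul_le_mul_of_nonneg_left h6 hC0.le
      have h9 : C0 * (y : ℝ) ^ n ≤ C0 * (2 ^ n * Y₂) := mul_le_mul_of_nonneg_left hyn hC0.le
      linarith
    have h4 : ∑ P ∈ U.filter (· ∉ B), |∑ Q ∈ V, b Q * (χ P Q.asIdeal : ℝ)| ≤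
        (1 + D1 + D2) * (Y₁ ^ (1 - δ) * Y₂) := by
      refine hfin _ D1 2 (by norm_num) (Finset.sum_nonneg fun _ _ => abs_nonneg _) hD10 (by linarith) ?_
      have h5 : (1 : ℕ) * 2 = 2 := rfl
      rw [show 2 * 1 = 2 from rfl, show 2 - 1 = 1 from rfl, pow_one, pow_one, pow_one, Nat.cast_one, one_mul] at hm
      refine hm.trans ?_
      have h6 : c * (C1 * ((y : ℝ) ^ n + (y : ℝ) ^ (n - 1) * (⌊Y₁⌋₊ : ℝ) ^ 2 * c) * (V.card : ℝ)) ≤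
          (C0 * Y₁) * (C1 * ((1 + C0) * 2 ^ n * Y₂) * (C0 * Y₂)) := by
        gcongr
      refine h6.trans ?_
      have h7 : (C0 * Y₁) * (C1 * ((1 + C0) * 2 ^ n * Y₂) * (C0 * Y₂)) = D1 * (Y₁ * Y₂ ^ 2) := by
        rw [hD1]
        ring
      rw [h7, mul_pow]
      refine mul_le_mul_of_nonneg_left (mul_le_mul_of_nonneg_right ?_ (by positivity)) hD10.le
      rw [← Real.rpow_natCast, ← Real.rpow_mul hY10.le]
      conv_lhs => rw [← Real.rpow_one Y₁]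
      refine Real.rpow_le_rpow_of_exponent_le hY1 ?_
      push_cast
      linarith
    have h5 : (B.card : ℝ) * V.card ≤ B.card * C0 * (Y₁ ^ (1 - δ) * Y₂) := by
      rw [mul_assoc]
      refine mul_le_mul_of_nonneg_left (hVc.trans ?_) (Nat.cast_nonneg _)
      refine mul_le_mul_of_nonneg_left ?_ hC0.le
      nlinarith
    calc _ ≤ B.card * C0 * (Y₁ ^ (1 - δ) * Y₂) + (1 + D1 + D2) * (Y₁ ^ (1 - δ) * Y₂) := add_le_add h5 h4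
      _ = _ := by ring
  · -- second case
    have h1 : ∑ P ∈ U, ∑ Q ∈ V, a P * b Q * s P Q = ∑ Q ∈ V, b Q * ∑ P ∈ U, a P * (χ Q P.asIdeal : ℝ) := by
      rw [Finset.sum_comm]
      refine Finset.sum_congr rfl fun Q hQ => ?_
      rw [Finset.mul_sum]
      refine Finset.sum_congr rfl fun P hP => ?_
      rw [(hs P hP Q hQ).1]
      ring
    rw [h1]
    refine (h2_split B (fun P hP => (hUV P (Finset.mem_union_right _ hP)).2) ha hb).trans ?_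
    obtain ⟨x, hx⟩ : ∃ x, x = ⌈Y₁⌉₊ := ⟨_, rfl⟩
    have hxY : Y₁ ≤ x := by
      rw [hx]
      exact Nat.le_ceil Y₁
    have hx2 : (x : ℝ) ≤ 2 * Y₁ := by
      have := Nat.ceil_lt_add_one hY10.le
      rw [← hx] at this
      linarith
    have hx0 : (0 : ℝ) < x := lt_of_lt_of_le hY10 hxY
    have hx1 : (1 : ℝ) ≤ x := hY1.trans hxY
    have hF1 : 1 ≤ ⌊Y₂⌋₊ := Nat.le_floor (by exact_mod_cast hY2)
    have hFY : (⌊Y₂⌋₊ : ℝ) ≤ Y₂ := Nat.floor_le hY20.le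
    have hYx : Y₂ ≤ (x : ℝ) ^ (3 * n) := hcase.le.trans (pow_le_pow_left₀ hY10.le hxY _)
    have hFy : ⌊Y₂⌋₊ ^ 2 ≤ x ^ (9 * n) := by
      have h2 : ((⌊Y₂⌋₊ : ℝ)) ^ 2 ≤ ((x : ℝ) ^ (3 * n)) ^ 2 :=
        pow_le_pow_left₀ (Nat.cast_nonneg _) (hFY.trans hYx) 2
      have h3 : ((x : ℝ) ^ (3 * n)) ^ 2 ≤ (x : ℝ) ^ (9 * n) := by
        rw [← pow_mul]
        exact pow_le_pow_right₀ hx1 (by omega)
      exact_mod_cast h2.trans h3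
    have hNy : x ^ k = (x ^ (9 * n)) ^ n := by rw [← pow_mul, hk]
    have hm := hmom k x ⌊Y₂⌋₊ (x ^ (9 * n)) hk0 hF1 hFy hNy (V.filter (· ∉ B)) U χ
      (fun P hP => ⟨(Finset.mem_filter.1 hP).2, (hUV P (Finset.mem_union_right _ (Finset.mem_filter.1 hP).1)).1,
        (hUV P (Finset.mem_union_right _ (Finset.mem_filter.1 hP).1)).2,
        Nat.le_floor (hV P (Finset.mem_filter.1 hP).1)⟩)
      (fun Q hQ => by
        have h2 := (hU Q hQ).trans hxY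
        exact_mod_cast h2) a ha
    obtain ⟨c, hc⟩ : ∃ c : ℝ, c = ((V.filter (· ∉ B)).card : ℝ) := ⟨_, rfl⟩
    have hc0 : 0 ≤ c := by
      rw [hc]
      exact Nat.cast_nonneg _
    have hcV : c ≤ C0 * Y₂ := by
      rw [hc]
      refine le_trans ?_ hVc
      exact_mod_cast Finset.card_filter_le _ _
    rw [← hc] at hm
    have h3 : ((x ^ (9 * n) : ℕ) : ℝ) ^ n + ((x ^ (9 * n) : ℕ) : ℝ) ^ (n - 1) * (⌊Y₂⌋₊ : ℝ) ^ 2 * c ≤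
        (1 + C0) * 2 ^ k * Y₁ ^ k := by
      rw [Nat.cast_pow]
      have h4 : ((x : ℝ) ^ (9 * n)) ^ (n - 1) * (⌊Y₂⌋₊ : ℝ) ^ 2 * c ≤ ((x : ℝ) ^ (9 * n)) ^ (n - 1) * Y₂ ^ 2 * (C0 * Y₂) := by
        gcongr
      have h5 : ((x : ℝ) ^ (9 * n)) ^ (n - 1) * Y₂ ^ 2 * (C0 * Y₂) = C0 * (((x : ℝ) ^ (9 * n)) ^ (n - 1) * Y₂ ^ 3) := by ring
      have h6 : Y₂ ^ 3 ≤ (x : ℝ) ^ (9 * n) := by
        refine (pow_le_pow_left₀ hY20.le hYx 3).trans (le_of_eq ?_)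
        rw [← pow_mul]
        congr 1
        ring
      have h7 : ((x : ℝ) ^ (9 * n)) ^ (n - 1) * Y₂ ^ 3 ≤ ((x : ℝ) ^ (9 * n)) ^ (n - 1) * (x : ℝ) ^ (9 * n) :=
        mul_le_mul_of_nonneg_left h6 (by positivity)
      have h8 : ((x : ℝ) ^ (9 * n)) ^ (n - 1) * (x : ℝ) ^ (9 * n) = ((x : ℝ) ^ (9 * n)) ^ n := by
        rw [← pow_succ]
        congr 1
        omega
      have h9 : ((x : ℝ) ^ (9 * n)) ^ n = (x : ℝ) ^ k := by rw [← pow_mul, hk]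
      have h10 : (x : ℝ) ^ k ≤ 2 ^ k * Y₁ ^ k := by
        rw [← mul_pow]
        exact pow_le_pow_left₀ hx0.le hx2 k
      rw [h8, h9] at h7
      rw [h9]
      have h11 : C0 * (((x : ℝ) ^ (9 * n)) ^ (n - 1) * Y₂ ^ 3) ≤ C0 * (x : ℝ) ^ k := mul_le_mul_of_nonneg_left h7 hC0.le
      have h12 : C0 * (x : ℝ) ^ k ≤ C0 * (2 ^ k * Y₁ ^ k) := mul_le_mul_of_nonneg_left h10 hC0.le
      linarith
    have h4 : ∑ Q ∈ V.filter (· ∉ B), |∑ P ∈ U, a P * (χ Q P.asIdeal : ℝ)| ≤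
        (1 + D1 + D2) * (Y₁ ^ (1 - δ) * Y₂) := by
      refine hfin _ D2 (2 * k) (by omega) (Finset.sum_nonneg fun _ _ => abs_nonneg _) hD20 (by linarith) ?_
      refine hm.trans ?_
      have h6 : c ^ (2 * k - 1) * (C1 * (((x ^ (9 * n) : ℕ) : ℝ) ^ n +
          ((x ^ (9 * n) : ℕ) : ℝ) ^ (n - 1) * (⌊Y₂⌋₊ : ℝ) ^ 2 * c) * ((k : ℝ) ^ k * (U.card : ℝ) ^ k)) ≤
          (C0 * Y₂) ^ (2 * k - 1) * (C1 * ((1 + C0) * 2 ^ k * Y₁ ^ k) * ((k : ℝ) ^ k * (C0 * Y₁) ^ k)) := by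
        gcongr
      refine h6.trans ?_
      have h7 : (C0 * Y₂) ^ (2 * k - 1) * (C1 * ((1 + C0) * 2 ^ k * Y₁ ^ k) * ((k : ℝ) ^ k * (C0 * Y₁) ^ k)) =
          D2 * (Y₂ ^ (2 * k - 1) * (Y₁ ^ k * Y₁ ^ k)) := by
        rw [hD2, mul_pow, mul_pow]
        ring
      rw [h7, mul_pow]
      refine mul_le_mul_of_nonneg_left ?_ hD20.le
      have h8 : (Y₁ ^ (1 - δ)) ^ (2 * k) = Y₁ ^ (2 * k - 1) := by
        rw [← Real.rpow_natCast, ← Real.rpow_mul hY10.le, ← Real.rpow_natCast]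
        congr 1
        rw [Nat.cast_sub (by omega), hδ]
        push_cast
        field_simp
      have h9 : Y₁ ^ k * Y₁ ^ k = Y₁ ^ (2 * k - 1) * Y₁ := by
        rw [← pow_add, ← pow_succ]
        congr 1
        omega
      have h10 : Y₂ ^ (2 * k) = Y₂ ^ (2 * k - 1) * Y₂ := by
        rw [← pow_succ]
        congr 1
        omega
      rw [h8, h9, h10]
      have h11 : 0 < Y₁ ^ (2 * k - 1) * Y₂ ^ (2 * k - 1) := by positivity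
      nlinarith
    have h5 : (B.card : ℝ) * U.card ≤ B.card * C0 * (Y₁ ^ (1 - δ) * Y₂) := by
      rw [mul_assoc]
      refine mul_le_mul_of_nonneg_left (hUc.trans ?_) (Nat.cast_nonneg _)
      refine mul_le_mul_of_nonneg_left ?_ hC0.le
      nlinarith
    calc _ ≤ B.card * C0 * (Y₁ ^ (1 - δ) * Y₂) + (1 + D1 + D2) * (Y₁ ^ (1 - δ) * Y₂) := add_le_add h5 h4
      _ = _ := by ring

end

end TRQ
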