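import Pool.Agent.TRQ.H2
import Pool.Agent.TRQ.SY0
import Pool.Agent.TRG.LM3
import Pool.Agent.TRG.GOOD

/-! [DNA-SY2] the field `bil` of the system of the good primes -/

set_option autoImplicit false

open NumberField Ideal IsDedekindDomain
open scoped Classical

namespace TRQ

open TR

section
variable {L M : Type} [Field L] [NumberField L] [Field M] [NumberField M] [Algebra L M]
  [IsTotallyReal L] (D : Dat L M)

theorem sy2_e {p : HeightOneSpectrum (𝓞 M) → 𝓞 M}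
    (hp : ∀ P, TRG.Good P → D.rr ∉ P.asIdeal → TRG.GenP P (p P))
    {X : HeightOneSpectrum (𝓞 M) → (Ideal (𝓞 M) →*₀ ℤ)} {u v : GP D} (hX : TRG.LamP u.1 (X u.1)) (hne : v ≠ u) :
    (if TRG.aM p u.1 v.1 = 0 then (1 : ℝ) else -1) = (X u.1 v.1.asIdeal : ℝ) := by
  have h1 : v.1 ≠ u.1 := fun h => hne (Subtype.ext h)
  obtain ⟨h2, h3⟩ := hX.at_prime (hp v.1 v.2.1 v.2.2) h1
  unfold TRG.aM
  rw [← h2]
  rcases h3 with h | h
  · have h5 : (if (1 : ℤ) = -1 then (1 : ZMod 2) else 0) = 0 := if_neg (by norm_num)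
    rw [h, h5, if_pos rfl]
    norm_num
  · have h5 : (if (-1 : ℤ) = -1 then (1 : ZMod 2) else 0) = 1 := if_pos rfl
    rw [h, h5, if_neg (by decide)]
    norm_num

theorem sy2_symm (hodd : Odd (classNumber M)) {p : HeightOneSpectrum (𝓞 M) → 𝓞 M}
    (hp : ∀ P, TRG.Good P → D.rr ∉ P.asIdeal → TRG.GenP P (p P))
    {X : HeightOneSpectrum (𝓞 M) → (Ideal (𝓞 M) →*₀ ℤ)} (hX : ∀ v : GP D, TRG.LamP v.1 (X v.1)) (u v : GP D) :
    X u.1 v.1.asIdeal = X v.1 u.1.asIdeal := by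
  by_cases h : u = v
  · rw [h]
  · have h1 := sy2_e D hp (hX u) (Ne.symm h)
    have h2 := sy2_e D hp (hX v) h
    rw [aM_comm D hodd hp u v, h2] at h1
    exact_mod_cast h1.symm

/-- **[DNA-SY2]** the field `bil` -/
theorem sy_bil (hodd : Odd (classNumber M)) (p : HeightOneSpectrum (𝓞 M) → 𝓞 M)
    (hp : ∀ P, TRG.Good P → D.rr ∉ P.asIdeal → TRG.GenP P (p P)) :
    ∃ C δ : ℝ, 0 < C ∧ 0 < δ ∧ δ ≤ 1 ∧ ∀ Y₁ Y₂ : ℝ, 1 ≤ Y₁ → Y₁ ≤ Y₂ → ∀ U V : Finset (GP D),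
      (∀ u ∈ U, ((baseM D hodd p hp).N u : ℝ) ≤ Y₁) → (∀ v ∈ V, ((baseM D hodd p hp).N v : ℝ) ≤ Y₂) →
      ∀ a b : GP D → ℝ, (∀ u, |a u| ≤ 1) → (∀ v, |b v| ≤ 1) →
      |∑ u ∈ U, ∑ v ∈ V, a u * b v * (baseM D hodd p hp).sg u v| ≤ C * Y₁ ^ (1 - δ) * Y₂ := by
  have hX0 : ∀ Q : HeightOneSpectrum (𝓞 M), ∃ X : Ideal (𝓞 M) →*₀ ℤ, TRG.Good Q → TRG.LamP Q X := by
    intro Q
    by_cases h : TRG.Good Q
    · obtain ⟨X, hX⟩ := TRG.good_exists_lamP D h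
      exact ⟨X, fun _ => hX⟩
    · obtain ⟨X, -⟩ : ∃ X : Ideal (𝓞 M) →*₀ ℤ, True := ⟨1, trivial⟩
      exact ⟨X, fun h' => absurd h' h⟩
  choose X hX using hX0
  have hXg : ∀ v : GP D, TRG.LamP v.1 (X v.1) := fun v => hX v.1 v.2.1
  obtain ⟨C, δ, hC, hδ, hδ1, h⟩ := bilinear2 M
  refine ⟨C, δ, hC, hδ, hδ1, fun Y₁ Y₂ h1 h12 U V hU hV a b ha hb => ?_⟩
  set g : GP D → HeightOneSpectrum (𝓞 M) := Subtype.val with hg
  have hgi : Function.Injective g := Subtype.val_injective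
  let ext : (GP D → ℝ) → HeightOneSpectrum (𝓞 M) → ℝ := fun f P =>
    if hP : TRG.Good P ∧ D.rr ∉ P.asIdeal then f ⟨P, hP⟩ else 0
  have hext : ∀ (f : GP D → ℝ) (v : GP D), ext f v.1 = f v := by
    intro f v
    exact dif_pos v.2
  have hexta : ∀ f : GP D → ℝ, (∀ v, |f v| ≤ 1) → ∀ P, |ext f P| ≤ 1 := by
    intro f hf P
    by_cases hP : TRG.Good P ∧ D.rr ∉ P.asIdeal
    · have h3 : ext f P = f ⟨P, hP⟩ := dif_pos hP
      rw [h3]
      exact hf _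
    · have h3 : ext f P = 0 := dif_neg hP
      rw [h3, abs_zero]
      exact zero_le_one
  have h2 := h Y₁ Y₂ h1 h12 (U.image g) (V.image g) X (fun P Q => (X Q P.asIdeal : ℝ)) ?_ ?_ ?_ ?_ (ext a) (ext b)
    (hexta a ha) (hexta b hb)
  · rw [Finset.sum_image fun x _ y _ hxy => hgi hxy] at h2
    have h4 : ∑ u ∈ U, ∑ v ∈ V, a u * b v * (baseM D hodd p hp).sg u v
        = ∑ x ∈ U, ∑ Q ∈ V.image g, ext a (g x) * ext b Q * (X Q (g x).asIdeal : ℝ) := by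
      refine Finset.sum_congr rfl fun u _ => ?_
      rw [Finset.sum_image fun x _ y _ hxy => hgi hxy]
      refine Finset.sum_congr rfl fun v _ => ?_
      rw [show ext a (g u) = a u from hext a u, show ext b (g v) = b v from hext b v]
      congr 1
      unfold Base.sg
      by_cases huv : u = v
      · rw [if_pos huv, huv, (hXg v).zero_iff _ |>.2 le_rfl, Int.cast_zero]
      · rw [if_neg huv]
        change (if TRG.aM p u.1 v.1 = 0 then (1 : ℝ) else -1) = _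
        rw [sy2_e D hp (hXg u) (Ne.symm huv), sy2_symm D hodd hp hXg]
    rw [h4]
    exact h2
  · intro P hP
    obtain ⟨u, hu, rfl⟩ := Finset.mem_image.1 hP
    exact hU u hu
  · intro P hP
    obtain ⟨v, hv, rfl⟩ := Finset.mem_image.1 hP
    exact hV v hv
  · intro P hP
    rw [Finset.mem_union] at hP
    have h3 : ∃ v : GP D, v.1 = P := by
      rcases hP with h | h
      · obtain ⟨u, -, hu⟩ := Finset.mem_image.1 h
        exact ⟨u, hu⟩
      · obtain ⟨u, -, hu⟩ := Finset.mem_image.1 h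
        exact ⟨u, hu⟩
    obtain ⟨v, rfl⟩ := h3
    exact ⟨v.2.1.two, hXg v⟩
  · intro P hP Q hQ
    obtain ⟨u, -, rfl⟩ := Finset.mem_image.1 hP
    obtain ⟨v, -, rfl⟩ := Finset.mem_image.1 hQ
    refine ⟨rfl, ?_⟩
    have := sy2_symm D hodd hp hXg v u
    exact_mod_cast this

end

end TRQ
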