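import Pool.Agent.TRQ.SY1
import Pool.Agent.TRQ.SY2
import Pool.Agent.TRQ.SY3

/-! [DNA-SY] the good primes of `M = L(√-7)` form a system -/

set_option autoImplicit false

open NumberField Ideal IsDedekindDomain
open scoped Classical

namespace TRQ

open TR

section
variable {L M : Type} [Field L] [NumberField L] [Field M] [NumberField M] [Algebra L M]
  [IsTotallyReal L] (D : Dat L M)

/-- [DNA-SY] `sy_same`, `sy_cheb`, `sy_mert`, `sy_bil`, `sy_chr` with one constant -/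
theorem exists_sys (hodd : Odd (classNumber M)) (p : HeightOneSpectrum (𝓞 M) → 𝓞 M)
    (hp : ∀ P, TRG.Good P → D.rr ∉ P.asIdeal → TRG.GenP P (p P)) :
    ∃ B : Sys (GP D), B.toBase = baseM D hodd p hp := by
  obtain ⟨C₁, hC₁, h₁⟩ := sy_same D hodd p hp
  obtain ⟨C₂, hC₂, h₂⟩ := sy_cheb D hodd p hp
  obtain ⟨β, C₃, hβ, hβ1, hC₃, h₃⟩ := sy_mert D hodd p hp
  obtain ⟨C₄, δ, hC₄, hδ, hδ1, h₄⟩ := sy_bil D hodd p hp
  obtain ⟨C₅, hC₅, h₅⟩ := sy_chr D hodd hp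
  have h0 : 1 ≤ C₁ + C₂ + C₃ + C₄ + C₅ + 1 := by linarith
  refine ⟨⟨⟨baseM D hodd p hp, β, C₁ + C₂ + C₃ + C₄ + C₅ + 1, δ, hβ, hβ1, h0, hδ, hδ1, ?_, ?_, ?_, ?_⟩, ?_⟩, rfl⟩
  · intro k S hS
    have := h₁ k S hS
    linarith
  · intro x hx
    refine (h₂ x hx).trans ?_
    gcongr
    linarith
  · intro x hx
    refine (h₃ x hx).trans ?_
    linarith
  · intro Y₁ Y₂ h1 h12 U V hU hV a b ha hb
    refine (h₄ Y₁ Y₂ h1 h12 U V hU hV a b ha hb).trans ?_
    have h3 : 0 ≤ Y₁ ^ (1 - δ) := Real.rpow_nonneg (by linarith) _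
    have h4 : 0 ≤ Y₂ := by linarith
    gcongr
    linarith
  · intro A ε hA x hx
    have h6 := h₅ A ε hA x hx
    have h7 : Real.log (Real.log ((baseM D hodd p hp).nS A + 3)) + C₅
        ≤ Real.log (Real.log ((baseM D hodd p hp).nS A + 3)) + (C₁ + C₂ + C₃ + C₄ + C₅ + 1) := by linarith
    have h8 := h6.trans h7
    refine le_trans (le_of_eq ?_) h8
    refine Finset.sum_congr ?_ fun v _ => rfl
    refine Finset.ext fun v => ?_
    simp only [Finset.mem_sdiff]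

end

end TRQ
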